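import Mathlib
import Pool.Agent.Y820.LB.Pairs
import Pool.Agent.N772.SC.Scale

/-!
# Products of dominated functions, logarithmic derivatives
-/

set_option autoImplicit false

open Polynomial MeasureTheory
open Pool.Agent.H261R2.CM (ez D_norm_ez)
open Pool.Agent.Y820.LB
open Pool.Agent.W242.IM (ae_eval_ne)

namespace Pool.Agent.N772.BL

lemma dom_mul {H H' : ℝ → ℝ} {c c' : ℝ} (h : Dom H c) (h' : Dom H' c') :
    Dom (fun t => H t * H' t) (c + c') := by
  obtain ⟨g, h1, h2, h3⟩ := h
  obtain ⟨g', h1', h2', h3'⟩ := h'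
  refine ⟨fun t => g t + g' t, h1.add h1', ?_, ?_⟩
  · filter_upwards [h2, h2'] with t h4 h5
    refine ⟨mul_nonneg h4.1 h5.1, ?_⟩
    refine le_trans ?_ (add_le_add h4.2 h5.2)
    rw [← Real.log_mul (by linarith [h4.1]) (by linarith [h5.1])]
    refine Real.log_le_log (by nlinarith [mul_nonneg h4.1 h5.1]) ?_
    nlinarith [h4.1, h5.1]
  · rw [intervalIntegral.integral_add h1 h1']
    linarith

lemma dom_const {a : ℝ} (ha : 0 ≤ a) : Dom (fun _ => a) (Real.log (1 + a)) := by
  refine ⟨fun _ => Real.log (1 + a), intervalIntegrable_const, ?_, ?_⟩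
  · exact Filter.Eventually.of_forall fun t => ⟨ha, le_rfl⟩
  · simp

/-- logarithmic derivatives of polynomials -/
lemma dom_log {Q : ℂ[X]} (hQ : Q ≠ 0) {d g : ℝ} (hd : (Q.natDegree : ℝ) ≤ d) (hg : 0 < g) :
    Dom (fun t => ‖Q.derivative.eval (ez t) / Q.eval (ez t)‖ / g)
      (8 * (Real.log 2 + Real.log (1 + d / g))) := by
  classical
  set l := Q.roots.toList with hl
  have hcard : (l.length : ℝ) ≤ d := by
    rw [hl, Multiset.length_toList]
    exact le_trans (by exact_mod_cast Q.card_roots') hd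
  have h1 := dom_frac (ι := Fin l.length) (fun j => l.get j) (fun _ => ((1 / g : ℝ) : ℂ))
    (d / g) (by
      rw [Finset.sum_const, Finset.card_univ, Fintype.card_fin, nsmul_eq_mul, Complex.norm_real,
        Real.norm_of_nonneg (by positivity)]
      rw [mul_one_div]
      exact div_le_div_of_nonneg_right hcard hg.le)
  refine h1.mono ?_
  filter_upwards [ae_eval_ne Q hQ] with t ht
  refine ⟨by positivity, ?_⟩
  rw [(IsAlgClosed.splits Q).eval_derivative_div_eval_of_ne_zero ht]
  have h2 : (Q.roots.map fun z => 1 / (ez t - z)).sum = ∑ j : Fin l.length,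
      1 / (ez t - l.get j) := by
    have h3 : Q.roots = (l : Multiset ℂ) := by rw [hl, Multiset.coe_toList]
    rw [h3, Multiset.map_coe, Multiset.sum_coe, ← List.sum_ofFn]
    congr 1
    apply List.ext_get
    · simp
    · intro n h1 h2
      simp
  rw [h2]
  have h4 : ∑ j : Fin l.length, ((1 / g : ℝ) : ℂ) / (ez t - l.get j) =
      ((1 / g : ℝ) : ℂ) * ∑ j : Fin l.length, 1 / (ez t - l.get j) := by
    rw [Finset.mul_sum]
    apply Finset.sum_congr rfl
    intro j _
    ring
  rw [h4, norm_mul, Complex.norm_real, Real.norm_of_nonneg (by positivity)]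
  apply le_of_eq
  ring

end Pool.Agent.N772.BL
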