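import Mathlib
import Pool.Agent.N772.SC.Scale

/-!
# The Mahler measure of `g A B + X (B' A - A' B)`
-/

set_option autoImplicit false

open Polynomial

namespace Pool.Agent.N772.BL

open Pool.Agent.N772.SC

/-- `g A B + X (B' A - B A')` -/
noncomputable def wr (g : ℂ) (A B : ℂ[X]) : ℂ[X] :=
  C g * (B * A) + X * (derivative B * A - B * derivative A)

lemma wr_eval (g : ℂ) (A B : ℂ[X]) {z : ℂ} (hA : A.eval z ≠ 0) (hB : B.eval z ≠ 0) :
    (wr g A B).eval z = A.eval z * B.eval z *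
      (g + z * (B.derivative.eval z / B.eval z - A.derivative.eval z / A.eval z)) := by
  unfold wr
  simp only [eval_add, eval_mul, eval_C, eval_X, eval_sub]
  field_simp

lemma natDegree_X_mul_derivative (A : ℂ[X]) : (X * derivative A).natDegree ≤ A.natDegree := by
  rcases Nat.eq_zero_or_pos A.natDegree with h | h
  · rw [derivative_of_natDegree_zero h]
    simp
  · refine natDegree_mul_le.trans ?_
    have := natDegree_derivative_lt (p := A) (by omega)
    rw [natDegree_X]
    omega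

lemma wr_natDegree (g : ℂ) {A B : ℂ[X]} {D : ℕ} (hA : A.natDegree ≤ D) (hB : B.natDegree ≤ D) :
    (wr g A B).natDegree ≤ 2 * D := by
  have h1 : X * (derivative B * A - B * derivative A) =
      (X * derivative B) * A - B * (X * derivative A) := by ring
  unfold wr
  rw [h1]
  refine natDegree_add_le_of_degree_le ?_ ((natDegree_sub_le _ _).trans (max_le ?_ ?_))
  · refine (natDegree_C_mul_le _ _).trans (natDegree_mul_le.trans (by omega))
  · refine natDegree_mul_le.trans ?_
    have := natDegree_X_mul_derivative B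
    omega
  · refine natDegree_mul_le.trans ?_
    have := natDegree_X_mul_derivative A
    omega

lemma le_sc' {x : ℝ} (hx : 1 ≤ x) (P : ℂ[X]) : P.mahlerMeasure ≤ (sc x P).mahlerMeasure := by
  rw [mahler_sc (by linarith), mahlerMeasure_eq_leadingCoeff_mul_prod_roots]
  refine mul_le_mul_of_nonneg_left ?_ (norm_nonneg _)
  generalize P.roots = s
  induction s using Multiset.induction_on with
  | empty => simp
  | cons a s ih =>
    rw [Multiset.map_cons, Multiset.prod_cons, Multiset.map_cons, Multiset.prod_cons]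
    have h0 : 0 ≤ (s.map fun a => max 1 ‖a‖).prod := by
      apply Multiset.prod_nonneg
      intro y hy
      obtain ⟨b, -, rfl⟩ := Multiset.mem_map.1 hy
      exact le_max_of_le_left zero_le_one
    refine mul_le_mul (max_le_max hx le_rfl) ih h0 ?_
    exact le_max_of_le_left (by linarith)

lemma sum_recip (K k0 : ℕ) (hk : k0 < K) :
    ∑ k ∈ (Finset.range K).erase k0, 1 / |(k : ℝ) - k0| ≤ 2 * (1 + Real.log K) := by
  have hh : ∀ n ≤ K, ∑ j ∈ Finset.range n, 1 / ((j : ℝ) + 1) ≤ 1 + Real.log K := by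
    intro n hn
    have h1 : ∑ j ∈ Finset.range n, 1 / ((j : ℝ) + 1) ≤ ∑ j ∈ Finset.range K, 1 / ((j : ℝ) + 1) :=
      Finset.sum_le_sum_of_subset_of_nonneg (Finset.range_mono hn) (fun i _ _ => by positivity)
    refine h1.trans ?_
    have h2 := harmonic_le_one_add_log K
    refine le_trans (le_of_eq ?_) h2
    unfold harmonic
    push_cast
    refine Finset.sum_congr rfl fun j _ => ?_
    rw [one_div]
  have h1 : (Finset.range K).erase k0 = Finset.range k0 ∪ Finset.Ico (k0 + 1) K := by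
    ext k
    simp only [Finset.mem_erase, Finset.mem_range, Finset.mem_union, Finset.mem_Ico]
    omega
  have h2 : Disjoint (Finset.range k0) (Finset.Ico (k0 + 1) K) := by
    rw [Finset.disjoint_left]
    intro k hk1 hk2
    rw [Finset.mem_range] at hk1
    rw [Finset.mem_Ico] at hk2
    omega
  rw [h1, Finset.sum_union h2]
  have h3 : ∑ k ∈ Finset.range k0, 1 / |(k : ℝ) - k0| =
      ∑ j ∈ Finset.range k0, 1 / ((j : ℝ) + 1) := by
    rw [← Finset.sum_range_reflect]
    refine Finset.sum_congr rfl fun j hj => ?_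
    have hj1 := Finset.mem_range.1 hj
    have h4 : ((k0 - 1 - j : ℕ) : ℝ) = (k0 : ℝ) - 1 - j := by
      rw [Nat.cast_sub (by omega), Nat.cast_sub (by omega)]
      simp
    rw [h4]
    congr 1
    have h5 : (k0 : ℝ) - 1 - j - k0 = -((j : ℝ) + 1) := by ring
    rw [h5, abs_neg, abs_of_nonneg (by positivity)]
  have h4 : ∑ k ∈ Finset.Ico (k0 + 1) K, 1 / |(k : ℝ) - k0| =
      ∑ j ∈ Finset.range (K - (k0 + 1)), 1 / ((j : ℝ) + 1) := by
    rw [Finset.sum_Ico_eq_sum_range]
    refine Finset.sum_congr rfl fun j _ => ?_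
    congr 1
    push_cast
    have h5 : (k0 : ℝ) + 1 + j - k0 = (j : ℝ) + 1 := by ring
    rw [h5, abs_of_nonneg (by positivity)]
  rw [h3, h4]
  have h5 := hh k0 hk.le
  have h6 := hh (K - (k0 + 1)) (by omega)
  linarith

/-- a circle that stays away from given points on the average -/
lemma exists_circle (T : Multiset ℂ) (N : ℕ) (hN : T.card ≤ N) (hN1 : 1 ≤ N) {δ : ℝ}
    (hδ : 0 < δ) :
    ∃ x : ℝ, 1 ≤ x ∧ x ≤ 1 + 4 * N * δ ∧ (∀ a ∈ T, x ≠ ‖a‖) ∧
      (T.map fun a => 1 / |x - ‖a‖|).sum ≤ 2 * (1 + Real.log (2 * N)) / δ := by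
  classical
  set K := 2 * N with hK
  have hK0 : (Finset.range K).Nonempty := ⟨0, Finset.mem_range.2 (by omega)⟩
  have hmin : ∀ a : ℂ, ∃ k ∈ Finset.range K, ∀ j ∈ Finset.range K,
      |1 + (2 * (k : ℝ) + 1) * δ - ‖a‖| ≤ |1 + (2 * (j : ℝ) + 1) * δ - ‖a‖| := by
    intro a
    exact Finset.exists_min_image (Finset.range K)
      (fun k : ℕ => |1 + (2 * (k : ℝ) + 1) * δ - ‖a‖|) hK0
  choose κ hκ1 hκ2 using hmin
  have hfar : ∀ (a : ℂ) (k : ℕ), k ∈ Finset.range K →
      |(k : ℝ) - κ a| * δ ≤ |1 + (2 * (k : ℝ) + 1) * δ - ‖a‖| := by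
    intro a k hk
    have h1 := hκ2 a k hk
    have h2 := abs_sub_le (1 + (2 * (k : ℝ) + 1) * δ) ‖a‖ (1 + (2 * (κ a : ℝ) + 1) * δ)
    rw [abs_sub_comm ‖a‖] at h2
    have h3 : |1 + (2 * (k : ℝ) + 1) * δ - (1 + (2 * (κ a : ℝ) + 1) * δ)| =
        2 * (|(k : ℝ) - κ a| * δ) := by
      rw [show 1 + (2 * (k : ℝ) + 1) * δ - (1 + (2 * (κ a : ℝ) + 1) * δ) =
        2 * (((k : ℝ) - κ a) * δ) by ring, abs_mul, abs_mul, abs_of_pos hδ]
      norm_num
    linarith
  set E : Finset ℕ := T.toFinset.image κ with hE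
  have hEc : E.card ≤ N :=
    Finset.card_image_le.trans ((Multiset.toFinset_card_le T).trans hN)
  set G : Finset ℕ := Finset.range K \ E with hG
  have hGc : N ≤ G.card := by
    have h1 := Finset.le_card_sdiff E (Finset.range K)
    rw [Finset.card_range, ← hG] at h1
    omega
  have hGne : G.Nonempty := Finset.card_pos.1 (by omega)
  have hgood : ∀ k ∈ G, ∀ a ∈ T, k ≠ κ a := by
    intro k hk a ha h
    have h1 := (Finset.mem_sdiff.1 hk).2
    exact h1 (Finset.mem_image.2 ⟨a, Multiset.mem_toFinset.2 ha, h.symm⟩)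
  have hlogK : 0 ≤ Real.log K := Real.log_natCast_nonneg K
  have hone : ∀ a ∈ T, ∑ k ∈ G, 1 / |1 + (2 * (k : ℝ) + 1) * δ - ‖a‖| ≤
      2 * (1 + Real.log K) / δ := by
    intro a ha
    have h1 : ∀ k ∈ G, 1 / |1 + (2 * (k : ℝ) + 1) * δ - ‖a‖| ≤ 1 / |(k : ℝ) - κ a| * (1 / δ) := by
      intro k hk
      have h2 := hfar a k (Finset.mem_sdiff.1 hk).1
      have h3 : 0 < |(k : ℝ) - κ a| := by
        rw [abs_pos, sub_ne_zero]
        exact_mod_cast hgood k hk a ha
      rw [one_div_mul_one_div]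
      exact one_div_le_one_div_of_le (by positivity) h2
    refine (Finset.sum_le_sum h1).trans ?_
    rw [← Finset.sum_mul]
    have h4 : ∑ k ∈ G, 1 / |(k : ℝ) - κ a| ≤
        ∑ k ∈ (Finset.range K).erase (κ a), 1 / |(k : ℝ) - κ a| := by
      apply Finset.sum_le_sum_of_subset_of_nonneg
      · intro k hk
        exact Finset.mem_erase.2 ⟨hgood k hk a ha, (Finset.mem_sdiff.1 hk).1⟩
      · intro i _ _
        positivity
    have h5 := sum_recip K (κ a) (Finset.mem_range.1 (hκ1 a))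
    rw [mul_one_div]
    exact div_le_div_of_nonneg_right (h4.trans h5) hδ.le
  have hsum : ∑ k ∈ G, (T.map fun a => 1 / |1 + (2 * (k : ℝ) + 1) * δ - ‖a‖|).sum ≤
      T.card * (2 * (1 + Real.log K) / δ) := by
    have key : ∀ U : Multiset ℂ, U ≤ T →
        ∑ k ∈ G, (U.map fun a => 1 / |1 + (2 * (k : ℝ) + 1) * δ - ‖a‖|).sum ≤
        U.card * (2 * (1 + Real.log K) / δ) := by
      intro U
      induction U using Multiset.induction_on with
      | empty => simp
      | cons b U ih =>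
        intro hU
        simp only [Multiset.map_cons, Multiset.sum_cons, Multiset.card_cons]
        rw [Finset.sum_add_distrib]
        have h1 := ih ((Multiset.le_cons_self U b).trans hU)
        have h2 := hone b (Multiset.mem_of_le hU (Multiset.mem_cons_self b U))
        push_cast
        linarith
    exact key T le_rfl
  obtain ⟨k, hk, hkle⟩ := Finset.exists_le_of_sum_le hGne
    (f := fun k : ℕ => (T.map fun a => 1 / |1 + (2 * (k : ℝ) + 1) * δ - ‖a‖|).sum)
    (g := fun _ => 2 * (1 + Real.log K) / δ) (by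
      refine hsum.trans ?_
      rw [Finset.sum_const, nsmul_eq_mul]
      apply mul_le_mul_of_nonneg_right _ (by positivity)
      exact_mod_cast hN.trans hGc)
  have hkK := Finset.mem_range.1 (Finset.mem_sdiff.1 hk).1
  refine ⟨1 + (2 * (k : ℝ) + 1) * δ, ?_, ?_, ?_, ?_⟩
  · have : 0 ≤ (2 * (k : ℝ) + 1) * δ := by positivity
    linarith
  · have h1 : (k : ℝ) + 1 ≤ 2 * N := by exact_mod_cast hkK
    nlinarith
  · intro a ha h
    have h2 := hfar a k (Finset.mem_sdiff.1 hk).1
    rw [h, sub_self, abs_zero] at h2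
    have h3 : 0 < |(k : ℝ) - κ a| := by
      rw [abs_pos, sub_ne_zero]
      exact_mod_cast hgood k hk a ha
    nlinarith [mul_pos h3 hδ]
  · have h4 : ((K : ℕ) : ℝ) = 2 * N := by rw [hK]; push_cast; ring
    rw [← h4]
    exact hkle

lemma logDeriv_le {Q : ℂ[X]} {z : ℂ} (hQ : Q ≠ 0) (h : ∀ a ∈ Q.roots, ‖z‖ ≠ ‖a‖) :
    Q.eval z ≠ 0 ∧ ‖Q.derivative.eval z / Q.eval z‖ ≤
      (Q.roots.map fun a => 1 / |‖z‖ - ‖a‖|).sum := by
  have h0 : Q.eval z ≠ 0 := by
    intro h1
    exact h z ((mem_roots hQ).2 h1) rfl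
  refine ⟨h0, ?_⟩
  rw [(IsAlgClosed.splits Q).eval_derivative_div_eval_of_ne_zero h0]
  have key : ∀ s : Multiset ℂ, (∀ a ∈ s, ‖z‖ ≠ ‖a‖) →
      ‖(s.map fun a => 1 / (z - a)).sum‖ ≤ (s.map fun a => 1 / |‖z‖ - ‖a‖|).sum := by
    intro s
    induction s using Multiset.induction_on with
    | empty => simp
    | cons b s ih =>
      intro hs
      rw [Multiset.map_cons, Multiset.sum_cons, Multiset.map_cons, Multiset.sum_cons]
      refine (norm_add_le _ _).trans (add_le_add ?_
        (ih (fun a ha => hs a (Multiset.mem_cons_of_mem ha))))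
      rw [norm_div, norm_one]
      refine one_div_le_one_div_of_le ?_ (abs_norm_sub_norm_le z b)
      rw [abs_pos, sub_ne_zero]
      exact hs b (Multiset.mem_cons_self b s)
  exact key _ h

/-- the threshold for the gaps -/
noncomputable def thr (D : ℕ) : ℝ := 128 * (D : ℝ) ^ 2 * (1 + Real.log (4 * D))

lemma thr_ge {D : ℕ} (hD : 1 ≤ D) : 128 * (D : ℝ) ^ 2 ≤ thr D := by
  have hD1 : (1:ℝ) ≤ D := by exact_mod_cast hD
  have h1 : 0 ≤ Real.log (4 * D) := Real.log_nonneg (by linarith)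
  unfold thr
  nlinarith [sq_nonneg (D : ℝ), mul_nonneg (sq_nonneg (D : ℝ)) h1]

lemma le_of_thr {D : ℕ} {g : ℝ} (hg0 : 0 ≤ g) (hg : thr D ≤ g) : (D : ℝ) ≤ g := by
  rcases Nat.eq_zero_or_pos D with h | h
  · rw [h]
    simpa using hg0
  · have h1 := thr_ge h
    have h2 : (1:ℝ) ≤ D := by exact_mod_cast h
    nlinarith

lemma thr_mono {D D' : ℕ} (h : D ≤ D') : thr D ≤ thr D' := by
  rcases Nat.eq_zero_or_pos D with h0 | h0
  · rw [h0]
    have : thr 0 = 0 := by simp [thr]
    rw [this]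
    rcases Nat.eq_zero_or_pos D' with h1 | h1
    · rw [h1, this]
    · have := thr_ge h1
      nlinarith [sq_nonneg (D' : ℝ)]
  · have h1 : (1:ℝ) ≤ D := by exact_mod_cast h0
    have h2 : (D : ℝ) ≤ D' := by exact_mod_cast h
    have h3 : 0 ≤ Real.log (4 * D) := Real.log_nonneg (by linarith)
    have h4 : Real.log (4 * D) ≤ Real.log (4 * D') := Real.log_le_log (by positivity) (by linarith)
    unfold thr
    apply mul_le_mul
    · nlinarith
    · linarith
    · linarith
    · positivity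

/-- the main estimate -/
theorem wr_mahler {A B : ℂ[X]} {D : ℕ} (hA : A ≠ 0) (hB : B ≠ 0) (hA1 : A.natDegree ≤ D)
    (hB1 : B.natDegree ≤ D) {g : ℂ} (hg1 : 1 ≤ ‖g‖) (hg : thr D ≤ ‖g‖) :
    wr g A B ≠ 0 ∧ ‖g‖ * (A.mahlerMeasure * B.mahlerMeasure) ≤
      2 * Real.exp 1 * (wr g A B).mahlerMeasure := by
  classical
  have hAm : 0 < A.mahlerMeasure := mahlerMeasure_pos_of_ne_zero hA
  have hBm : 0 < B.mahlerMeasure := mahlerMeasure_pos_of_ne_zero hB
  rcases Nat.eq_zero_or_pos D with hD0 | hD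
  · subst hD0
    have hA2 : derivative A = 0 := derivative_of_natDegree_zero (by omega)
    have hB2 : derivative B = 0 := derivative_of_natDegree_zero (by omega)
    have h1 : wr g A B = C g * (B * A) := by
      unfold wr
      rw [hA2, hB2]
      simp
    have hg0 : g ≠ 0 := by
      intro h
      rw [h, norm_zero] at hg1
      linarith
    rw [h1]
    refine ⟨mul_ne_zero (C_ne_zero.2 hg0) (mul_ne_zero hB hA), ?_⟩
    rw [mahlerMeasure_mul, mahlerMeasure_mul, mahlerMeasure_const]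
    have h2 : (1:ℝ) ≤ 2 * Real.exp 1 := by
      have := Real.add_one_le_exp (1:ℝ)
      linarith
    have h3 : 0 < ‖g‖ * (B.mahlerMeasure * A.mahlerMeasure) := by positivity
    nlinarith
  have hD1 : (1:ℝ) ≤ D := by exact_mod_cast hD
  have hgp : 0 < ‖g‖ := by linarith
  set L : ℝ := 1 + Real.log (4 * D) with hL
  have hL1 : 1 ≤ L := by
    have : 0 ≤ Real.log (4 * D) := Real.log_nonneg (by linarith)
    linarith
  have hgL : 128 * (D : ℝ) ^ 2 * L ≤ ‖g‖ := hg
  set δ : ℝ := 8 * L / ‖g‖ with hδ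
  have hδ0 : 0 < δ := by positivity
  obtain ⟨x, hx1, hx2, hx3, hx6⟩ := exists_circle (A.roots + B.roots) (2 * D) (by
    rw [Multiset.card_add]
    have h3 := A.card_roots'
    have h4 := B.card_roots'
    omega) (by omega) hδ0
  have hx4 : x ≤ 1 + 64 * (D : ℝ) * L / ‖g‖ := by
    refine hx2.trans (le_of_eq ?_)
    rw [hδ]
    push_cast
    field_simp
    ring
  have h40 : 64 * (D : ℝ) * L / ‖g‖ ≤ 1 / 2 := by
    rw [div_le_iff₀ hgp]
    have : (D : ℝ) * L ≤ (D : ℝ) ^ 2 * L := by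
      apply mul_le_mul_of_nonneg_right _ (by linarith)
      nlinarith
    nlinarith
  have hx5 : x ≤ 2 := by linarith
  have hx0 : 0 < x := by linarith
  have hS : (A.roots.map fun a => 1 / |x - ‖a‖|).sum + (B.roots.map fun a => 1 / |x - ‖a‖|).sum ≤
      ‖g‖ / 4 := by
    rw [Multiset.map_add, Multiset.sum_add] at hx6
    refine hx6.trans (le_of_eq ?_)
    have h1 : (2 * ((2 * D : ℕ) : ℝ)) = 4 * D := by push_cast; ring
    rw [h1, ← hL, hδ]
    field_simp
    ring
  have hon : ∀ z : ℂ, ‖z‖ = x → A.eval z ≠ 0 ∧ B.eval z ≠ 0 ∧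
      ‖g‖ / 2 * ‖(A * B).eval z‖ ≤ ‖(wr g A B).eval z‖ := by
    intro z hz
    obtain ⟨a1, a2⟩ := logDeriv_le hA (z := z) (by
      intro a ha
      rw [hz]
      exact hx3 a (Multiset.mem_add.2 (Or.inl ha)))
    obtain ⟨b1, b2⟩ := logDeriv_le hB (z := z) (by
      intro a ha
      rw [hz]
      exact hx3 a (Multiset.mem_add.2 (Or.inr ha)))
    refine ⟨a1, b1, ?_⟩
    rw [wr_eval g A B a1 b1, norm_mul, eval_mul]
    rw [hz] at a2 b2
    have h2 : ‖z * (B.derivative.eval z / B.eval z - A.derivative.eval z / A.eval z)‖ ≤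
        ‖g‖ / 2 := by
      rw [norm_mul, hz]
      have h3 := norm_sub_le (B.derivative.eval z / B.eval z) (A.derivative.eval z / A.eval z)
      have h4 := norm_nonneg (B.derivative.eval z / B.eval z - A.derivative.eval z / A.eval z)
      nlinarith
    have h5 : ‖g‖ / 2 ≤ ‖g + z * (B.derivative.eval z / B.eval z -
        A.derivative.eval z / A.eval z)‖ := by
      have h6 := norm_sub_norm_le g (-(z * (B.derivative.eval z / B.eval z -
        A.derivative.eval z / A.eval z)))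
      rw [sub_neg_eq_add, norm_neg] at h6
      linarith
    have h7 := norm_nonneg (A.eval z * B.eval z)
    nlinarith
  have hxz : ∀ z : ℂ, ‖z‖ = 1 → ‖(x : ℂ) * z‖ = x := by
    intro z hz
    rw [norm_mul, hz, mul_one, Complex.norm_real, Real.norm_of_nonneg hx0.le]
  have hne : wr g A B ≠ 0 := by
    intro h0
    obtain ⟨a1, b1, h1⟩ := hon ((x : ℂ) * 1) (hxz 1 norm_one)
    rw [h0, eval_zero, norm_zero, eval_mul] at h1
    have h2 : 0 < ‖A.eval ((x : ℂ) * 1) * B.eval ((x : ℂ) * 1)‖ :=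
      norm_pos_iff.2 (mul_ne_zero a1 b1)
    nlinarith
  refine ⟨hne, ?_⟩
  have h1 := mahler_mono (P := sc x (wr g A B)) (Q := sc x (A * B)) (c := ‖g‖ / 2)
    (by positivity) (sc_ne_zero hx0 hne) (sc_ne_zero hx0 (mul_ne_zero hA hB)) (by
      intro z hz
      rw [eval_sc, eval_mul]
      exact mul_ne_zero (hon _ (hxz z hz)).1 (hon _ (hxz z hz)).2.1) (by
      intro z hz
      rw [eval_sc, eval_sc]
      exact (hon _ (hxz z hz)).2.2)
  have h2 := le_sc' hx1 (A * B)
  have h3 := sc_le hx1 (wr g A B)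
  have h4 : x ^ (wr g A B).natDegree ≤ Real.exp 1 := by
    calc x ^ (wr g A B).natDegree ≤ x ^ (2 * D) := pow_le_pow_right₀ hx1 (wr_natDegree g hA1 hB1)
      _ ≤ (Real.exp (64 * (D : ℝ) * L / ‖g‖)) ^ (2 * D) := by
        apply pow_le_pow_left₀ hx0.le
        refine hx4.trans ?_
        rw [add_comm]
        exact Real.add_one_le_exp _
      _ = Real.exp ((2 * D : ℕ) * (64 * (D : ℝ) * L / ‖g‖)) := by rw [← Real.exp_nat_mul]
      _ ≤ Real.exp 1 := by
        apply Real.exp_le_exp.2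
        push_cast
        rw [← mul_div_assoc, div_le_one hgp]
        nlinarith
  rw [mahlerMeasure_mul] at h2
  have h5 : 0 ≤ (wr g A B).mahlerMeasure := mahlerMeasure_nonneg _
  have h6 : x ^ (wr g A B).natDegree * (wr g A B).mahlerMeasure ≤
      Real.exp 1 * (wr g A B).mahlerMeasure := mul_le_mul_of_nonneg_right h4 h5
  have h7 : ‖g‖ / 2 * (A.mahlerMeasure * B.mahlerMeasure) ≤
      ‖g‖ / 2 * (sc x (A * B)).mahlerMeasure := mul_le_mul_of_nonneg_left h2 (by positivity)
  linarith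

end Pool.Agent.N772.BL
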