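import Mathlib
import Pool.Agent.N772.BL.Dom
import Pool.Agent.N772.BL.Wr

/-!
# Quotients of a block by a sum of blocks
-/

set_option autoImplicit false

open Polynomial MeasureTheory
open Pool.Agent.H261R2.CM (ez D_norm_ez)
open Pool.Agent.Y820.LB
open Pool.Agent.W242.IM (ae_eval_ne)

namespace Pool.Agent.N772.BL

lemma ez_ne (t : ℝ) : ez t ≠ 0 := by
  intro h
  have := D_norm_ez t
  rw [h, norm_zero] at this
  norm_num at this

lemma dom_wr {A B : ℂ[X]} {D : ℕ} (hA : A ≠ 0) (hB : B ≠ 0) (hA1 : A.natDegree ≤ D)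
    (hB1 : B.natDegree ≤ D) {g : ℂ} (hg1 : 1 ≤ ‖g‖) (hg : thr D ≤ ‖g‖) :
    Dom (fun t => ‖g‖ * (‖A.eval (ez t)‖ * ‖B.eval (ez t)‖) / ‖(wr g A B).eval (ez t)‖) 25 := by
  obtain ⟨hne, hM⟩ := wr_mahler hA hB hA1 hB1 hg1 hg
  have hgp : 0 < ‖g‖ := by linarith
  have hDg : (D : ℝ) / ‖g‖ ≤ 1 := by
    rw [div_le_one hgp]
    exact le_of_thr hgp.le hg
  have hlog : Real.log (1 + D / ‖g‖) ≤ Real.log 2 := by
    apply Real.log_le_log (by positivity)
    linarith
  have h1 := (dom_log hA (d := D) (by exact_mod_cast hA1) hgp).add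
    (dom_log hB (d := D) (by exact_mod_cast hB1) hgp)
  obtain ⟨u, hu1, hu2, hu3⟩ := h1
  have hl2 := Real.log_two_lt_d9
  refine ⟨fun t => Real.log 2 + u t + (Real.log ‖g‖ + Real.log ‖A.eval (ez t)‖ +
    Real.log ‖B.eval (ez t)‖ - Real.log ‖(wr g A B).eval (ez t)‖), ?_, ?_, ?_⟩
  · exact (intervalIntegrable_const.add hu1).add (((intervalIntegrable_const.add
      (integrable_log A)).add (integrable_log B)).sub (integrable_log _))
  · filter_upwards [hu2, ae_eval_ne A hA, ae_eval_ne B hB, ae_eval_ne _ hne] with t h2 h3 h4 h5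
    refine ⟨by positivity, ?_⟩
    have p1 : 0 < ‖A.eval (ez t)‖ := norm_pos_iff.2 h3
    have p2 : 0 < ‖B.eval (ez t)‖ := norm_pos_iff.2 h4
    have p3 : 0 < ‖(wr g A B).eval (ez t)‖ := norm_pos_iff.2 h5
    set a := ‖A.derivative.eval (ez t) / A.eval (ez t)‖ with ha
    set b := ‖B.derivative.eval (ez t) / B.eval (ez t)‖ with hb
    have h6 : ‖(wr g A B).eval (ez t)‖ ≤ ‖g‖ * (‖A.eval (ez t)‖ * ‖B.eval (ez t)‖) *
        (1 + (a / ‖g‖ + b / ‖g‖)) := by
      rw [wr_eval g A B h3 h4, norm_mul, norm_mul]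
      have h7 : ‖g + ez t * (B.derivative.eval (ez t) / B.eval (ez t) -
          A.derivative.eval (ez t) / A.eval (ez t))‖ ≤ ‖g‖ * (1 + (a / ‖g‖ + b / ‖g‖)) := by
        refine (norm_add_le _ _).trans ?_
        rw [norm_mul, D_norm_ez, one_mul]
        have h8 := norm_sub_le (B.derivative.eval (ez t) / B.eval (ez t))
          (A.derivative.eval (ez t) / A.eval (ez t))
        rw [← ha, ← hb] at h8
        have h9 : ‖g‖ * (1 + (a / ‖g‖ + b / ‖g‖)) = ‖g‖ + (a + b) := by
          field_simp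
        rw [h9]
        linarith
      have h10 : 0 ≤ ‖A.eval (ez t)‖ * ‖B.eval (ez t)‖ := by positivity
      nlinarith
    have h7 : 1 + ‖g‖ * (‖A.eval (ez t)‖ * ‖B.eval (ez t)‖) / ‖(wr g A B).eval (ez t)‖ ≤
        2 * (1 + (a / ‖g‖ + b / ‖g‖)) *
          (‖g‖ * ‖A.eval (ez t)‖ * ‖B.eval (ez t)‖ / ‖(wr g A B).eval (ez t)‖) := by
      rw [← sub_nonneg]
      have h8 : 2 * (1 + (a / ‖g‖ + b / ‖g‖)) *
          (‖g‖ * ‖A.eval (ez t)‖ * ‖B.eval (ez t)‖ / ‖(wr g A B).eval (ez t)‖) -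
          (1 + ‖g‖ * (‖A.eval (ez t)‖ * ‖B.eval (ez t)‖) / ‖(wr g A B).eval (ez t)‖) =
          ((‖g‖ * (‖A.eval (ez t)‖ * ‖B.eval (ez t)‖) * (1 + (a / ‖g‖ + b / ‖g‖)) -
            ‖(wr g A B).eval (ez t)‖) + (‖g‖ * (‖A.eval (ez t)‖ * ‖B.eval (ez t)‖) *
              (a / ‖g‖ + b / ‖g‖))) / ‖(wr g A B).eval (ez t)‖ := by
        field_simp
        ring
      rw [h8]
      have h9 : 0 ≤ ‖g‖ * (‖A.eval (ez t)‖ * ‖B.eval (ez t)‖) * (a / ‖g‖ + b / ‖g‖) := by
        positivity
      exact div_nonneg (by linarith) p3.le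
    have h8 : 0 ≤ a / ‖g‖ + b / ‖g‖ := by positivity
    have h9 := Real.log_le_log (by positivity) h7
    rw [Real.log_mul (by positivity) (by positivity), Real.log_mul (by norm_num) (by positivity),
      Real.log_div (by positivity) p3.ne', Real.log_mul (by positivity) p2.ne',
      Real.log_mul hgp.ne' p1.ne'] at h9
    have h10 := h2.2
    linarith
  · have i1 : IntervalIntegrable (fun t => Real.log 2 + u t) volume 0 1 :=
      intervalIntegrable_const.add hu1
    have i2 : IntervalIntegrable (fun t => Real.log ‖g‖ + Real.log ‖A.eval (ez t)‖) volume 0 1 :=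
      intervalIntegrable_const.add (integrable_log A)
    rw [intervalIntegral.integral_add i1 ((i2.add (integrable_log B)).sub (integrable_log _)),
      intervalIntegral.integral_add intervalIntegrable_const hu1,
      intervalIntegral.integral_sub (i2.add (integrable_log B)) (integrable_log _),
      intervalIntegral.integral_add i2 (integrable_log B),
      intervalIntegral.integral_add intervalIntegrable_const (integrable_log A),
      ← log_mahler, ← log_mahler, ← log_mahler]
    simp only [intervalIntegral.integral_const, sub_zero, smul_eq_mul, one_mul]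
    have hAm : 0 < A.mahlerMeasure := mahlerMeasure_pos_of_ne_zero hA
    have hBm : 0 < B.mahlerMeasure := mahlerMeasure_pos_of_ne_zero hB
    have hRm : 0 < (wr g A B).mahlerMeasure := mahlerMeasure_pos_of_ne_zero hne
    have h9 := Real.log_le_log (by positivity) hM
    rw [Real.log_mul hgp.ne' (by positivity), Real.log_mul hAm.ne' hBm.ne',
      Real.log_mul (by positivity) hRm.ne', Real.log_mul (by norm_num) (by positivity),
      Real.log_exp] at h9
    linarith

/-- the sum of the blocks -/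
noncomputable def blk (S : Finset ℕ) (A : ℕ → ℂ[X]) : ℂ[X] := ∑ s ∈ S, A s * X ^ s

/-- the blocks after one of them has been killed -/
noncomputable def kl (i : ℕ) (A : ℕ → ℂ[X]) (s : ℕ) : ℂ[X] := wr ((s : ℂ) - (i : ℂ)) (A i) (A s)

lemma X_mul_derivative_X_pow (s : ℕ) : X * derivative (X ^ s : ℂ[X]) = C (s : ℂ) * X ^ s := by
  cases s with
  | zero => simp
  | succ n =>
    rw [derivative_X_pow]
    simp only [Nat.add_sub_cancel]
    ring

lemma kill (S : Finset ℕ) (A : ℕ → ℂ[X]) (i : ℕ) :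
    X * (derivative (blk S A) * A i - blk S A * derivative (A i)) -
      C (i : ℂ) * (blk S A * A i) = blk S (kl i A) := by
  unfold blk
  rw [derivative_sum, Finset.sum_mul, Finset.sum_mul, Finset.sum_mul, ← Finset.sum_sub_distrib,
    Finset.mul_sum, Finset.mul_sum, ← Finset.sum_sub_distrib]
  refine Finset.sum_congr rfl fun s _ => ?_
  unfold kl wr
  have h := X_mul_derivative_X_pow s
  rw [derivative_mul, C_sub]
  linear_combination (A s * A i) * h

lemma kl_self (i : ℕ) (A : ℕ → ℂ[X]) : kl i A i = 0 := by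
  unfold kl wr
  rw [sub_self, C_0]
  ring

lemma blk_erase {S : Finset ℕ} {A : ℕ → ℂ[X]} {i : ℕ} (h : A i = 0) :
    blk (S.erase i) A = blk S A := by
  classical
  unfold blk
  by_cases hi : i ∈ S
  · rw [← Finset.add_sum_erase S _ hi, h]
    simp
  · rw [Finset.erase_eq_of_notMem hi]

lemma blk_shift {S : Finset ℕ} {A : ℕ → ℂ[X]} {m : ℕ} (hm : ∀ s ∈ S, m ≤ s) :
    blk S A = X ^ m * ∑ s ∈ S, A s * X ^ (s - m) := by
  unfold blk
  rw [Finset.mul_sum]
  refine Finset.sum_congr rfl fun s hs => ?_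
  have h1 : (X : ℂ[X]) ^ s = X ^ m * X ^ (s - m) := by
    rw [← pow_add]
    congr 1
    have := hm s hs
    omega
  rw [h1]
  ring

/-- one step -/
lemma step {S : Finset ℕ} {A : ℕ → ℂ[X]} {D i l g : ℕ} (hl : l ∈ S) (hi : i ∈ S)
    (hD : ∀ s ∈ S, (A s).natDegree ≤ D) (hgi : |(l : ℝ) - i| = g)
    (hmax : ∀ s ∈ S, |(l : ℝ) - s| ≤ g) (hg1 : 1 ≤ g) (hg : thr D ≤ g)
    (hAl : A l ≠ 0) (hAi : A i ≠ 0) {c : ℝ} (hP1 : blk S (kl i A) ≠ 0)
    (hdom : Dom (fun t => ‖(kl i A l).eval (ez t)‖ / ‖(blk S (kl i A)).eval (ez t)‖) c) :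
    blk S A ≠ 0 ∧ Dom (fun t => ‖(A l).eval (ez t)‖ / ‖(blk S A).eval (ez t)‖) (c + 54) := by
  classical
  have hgp : (0:ℝ) < g := by exact_mod_cast hg1
  have hne : blk S A ≠ 0 := by
    intro h
    apply hP1
    rw [← kill, h]
    simp
  refine ⟨hne, ?_⟩
  have hSne : S.Nonempty := ⟨l, hl⟩
  set m := S.min' hSne with hm
  have hmS : m ∈ S := S.min'_mem hSne
  have hmle : ∀ s ∈ S, m ≤ s := fun s hs => S.min'_le s hs
  set Q : ℂ[X] := ∑ s ∈ S, A s * X ^ (s - m) with hQ
  have hPQ : blk S A = X ^ m * Q := blk_shift hmle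
  have hQ0 : Q ≠ 0 := by
    intro h
    apply hne
    rw [hPQ, h, mul_zero]
  have hQd : (Q.natDegree : ℝ) ≤ 2 * g + D := by
    have h1 : Q.natDegree ≤ 2 * g + D := by
      rw [hQ]
      refine natDegree_sum_le_of_forall_le S _ fun s hs => ?_
      refine natDegree_mul_le.trans ?_
      rw [natDegree_X_pow]
      have h2 := hD s hs
      have h3 : s - m ≤ 2 * g := by
        have h4 := hmax s hs
        have h5 := hmax m hmS
        rw [abs_le] at h4 h5
        have h6 : (s : ℝ) ≤ m + 2 * g := by linarith [h4.1, h4.2, h5.1, h5.2]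
        have h7 : s ≤ m + 2 * g := by exact_mod_cast h6
        omega
      omega
    exact_mod_cast h1
  have hDg : (D : ℝ) ≤ g := le_of_thr hgp.le hg
  -- the logarithmic derivatives
  have d1 := dom_log hQ0 hQd hgp
  have d2 := dom_log hAi (d := D) (by exact_mod_cast hD i hi) hgp
  have d3 := (dom_const (a := 2) (by norm_num)).add (d1.add d2)
  have e1 : Real.log (1 + (2 * (g : ℝ) + D) / g) ≤ Real.log 4 := by
    apply Real.log_le_log (by positivity)
    have : (2 * (g : ℝ) + D) / g ≤ 3 := by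
      rw [div_le_iff₀ hgp]
      linarith
    linarith
  have e2 : Real.log (1 + (D : ℝ) / g) ≤ Real.log 2 := by
    apply Real.log_le_log (by positivity)
    have : (D : ℝ) / g ≤ 1 := by
      rw [div_le_one hgp]
      exact hDg
    linarith
  have e3 : Real.log 4 = 2 * Real.log 2 := by
    rw [show (4:ℝ) = 2 ^ 2 by norm_num, Real.log_pow]
    norm_num
  have e4 : Real.log (1 + 2) ≤ 2 * Real.log 2 := by
    rw [← e3]
    apply Real.log_le_log (by norm_num) (by norm_num)
  have hl2 := Real.log_two_lt_d9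
  have e5 : Real.log (1 + 2) ≤ 1.2 := by
    have := Real.log_le_log (by norm_num : (0:ℝ) < 1 + 2) (by norm_num : (1:ℝ) + 2 ≤ 3)
    have h3 : Real.log 3 ≤ 1.2 := by
      have h4 := Real.exp_one_gt_d9
      rw [Real.log_le_iff_le_exp (by norm_num)]
      have h5 : Real.exp (1.2:ℝ) = Real.exp 1 * Real.exp 0.2 := by
        rw [← Real.exp_add]
        norm_num
      rw [h5]
      have h6 := Real.add_one_le_exp (0.2:ℝ)
      nlinarith
    linarith
  -- the factor of the target block
  have hgn : ‖((l : ℂ) - (i : ℂ))‖ = g := by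
    rw [← hgi, ← Complex.ofReal_natCast, ← Complex.ofReal_natCast, ← Complex.ofReal_sub,
      Complex.norm_real, Real.norm_eq_abs]
  have d4 := dom_wr (g := (l : ℂ) - (i : ℂ)) hAi hAl (hD i hi) (hD l hl)
    (by rw [hgn]; exact_mod_cast hg1) (by rw [hgn]; exact hg)
  have hwr0 : wr ((l : ℂ) - (i : ℂ)) (A i) (A l) ≠ 0 :=
    (wr_mahler (g := (l : ℂ) - (i : ℂ)) hAi hAl (hD i hi) (hD l hl)
      (by rw [hgn]; exact_mod_cast hg1) (by rw [hgn]; exact hg)).1
  have d5 := dom_mul (dom_mul hdom d3) d4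
  refine (d5.le ?_).mono ?_
  · linarith
  filter_upwards [ae_eval_ne _ hne, ae_eval_ne _ hQ0, ae_eval_ne _ hAi, ae_eval_ne _ hAl,
    ae_eval_ne _ hwr0, ae_eval_ne _ hP1] with t h1 h2 h3 h4 h5 h6
  refine ⟨by positivity, ?_⟩
  have p1 : 0 < ‖(blk S A).eval (ez t)‖ := norm_pos_iff.2 h1
  have p3 : 0 < ‖(A i).eval (ez t)‖ := norm_pos_iff.2 h3
  have p4 : 0 < ‖(A l).eval (ez t)‖ := norm_pos_iff.2 h4
  have p5 : 0 < ‖(wr ((l : ℂ) - (i : ℂ)) (A i) (A l)).eval (ez t)‖ := norm_pos_iff.2 h5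
  have p6 : 0 < ‖(blk S (kl i A)).eval (ez t)‖ := norm_pos_iff.2 h6
  set a := ‖Q.derivative.eval (ez t) / Q.eval (ez t)‖ with ha
  set b := ‖(A i).derivative.eval (ez t) / (A i).eval (ez t)‖ with hb
  have h7 : (blk S (kl i A)).eval (ez t) = (blk S A).eval (ez t) * (A i).eval (ez t) *
      (((m : ℂ) - (i : ℂ)) + ez t * (Q.derivative.eval (ez t) / Q.eval (ez t) -
        (A i).derivative.eval (ez t) / (A i).eval (ez t))) := by
    have h8 := congrArg (fun R => R.eval (ez t)) (kill S A i)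
    have h9 := congrArg (fun R => R.eval (ez t)) (X_mul_derivative_X_pow m)
    simp only [eval_mul, eval_sub, eval_X, eval_C, eval_pow] at h8 h9
    rw [← h8, hPQ]
    simp only [derivative_mul, eval_mul, eval_add, eval_pow, eval_X]
    field_simp
    linear_combination (Q.eval (ez t) * (A i).eval (ez t)) * h9
  have h8 : ‖(blk S (kl i A)).eval (ez t)‖ ≤ ‖(blk S A).eval (ez t)‖ * ‖(A i).eval (ez t)‖ *
      (g * (2 + (a / g + b / g))) := by
    rw [h7, norm_mul, norm_mul]
    have h9 : ‖((m : ℂ) - (i : ℂ)) + ez t * (Q.derivative.eval (ez t) / Q.eval (ez t) -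
        (A i).derivative.eval (ez t) / (A i).eval (ez t))‖ ≤ g * (2 + (a / g + b / g)) := by
      refine (norm_add_le _ _).trans ?_
      rw [norm_mul, D_norm_ez, one_mul]
      have h10 := norm_sub_le (Q.derivative.eval (ez t) / Q.eval (ez t))
        ((A i).derivative.eval (ez t) / (A i).eval (ez t))
      rw [← ha, ← hb] at h10
      have h11 : ‖((m : ℂ) - (i : ℂ))‖ ≤ 2 * g := by
        rw [← Complex.ofReal_natCast, ← Complex.ofReal_natCast, ← Complex.ofReal_sub,
          Complex.norm_real, Real.norm_eq_abs]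
        have h12 := hmax m hmS
        rw [abs_le] at h12 ⊢
        have h13 : |(l : ℝ) - i| ≤ g := hgi.le
        rw [abs_le] at h13
        constructor <;> linarith [h12.1, h12.2, h13.1, h13.2]
      have h14 : (g : ℝ) * (2 + (a / g + b / g)) = 2 * g + (a + b) := by
        field_simp
      rw [h14]
      linarith
    have h15 : 0 ≤ ‖(blk S A).eval (ez t)‖ * ‖(A i).eval (ez t)‖ := by positivity
    exact mul_le_mul_of_nonneg_left h9 h15
  rw [hgn]
  have h9 : ‖(kl i A l).eval (ez t)‖ / ‖(blk S (kl i A)).eval (ez t)‖ * (2 + (a / g + b / g)) *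
      (g * (‖(A i).eval (ez t)‖ * ‖(A l).eval (ez t)‖) /
        ‖(wr ((l : ℂ) - (i : ℂ)) (A i) (A l)).eval (ez t)‖) =
      ‖(A l).eval (ez t)‖ * (‖(A i).eval (ez t)‖ * (g * (2 + (a / g + b / g)))) /
        ‖(blk S (kl i A)).eval (ez t)‖ := by
    have : kl i A l = wr ((l : ℂ) - (i : ℂ)) (A i) (A l) := rfl
    rw [this]
    field_simp
  rw [h9, div_le_div_iff₀ p1 p6]
  nlinarith

/-- **Main theorem.** -/
theorem main (n : ℕ) : ∀ (S : Finset ℕ) (A : ℕ → ℂ[X]) (D l : ℕ), S.card ≤ n + 1 → l ∈ S →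
    A l ≠ 0 → (∀ s ∈ S, (A s).natDegree ≤ D) →
    (∀ s ∈ S, ∀ t ∈ S, s ≠ t → thr (2 ^ n * D) ≤ |(s : ℝ) - t|) →
    blk S A ≠ 0 ∧ Dom (fun t => ‖(A l).eval (ez t)‖ / ‖(blk S A).eval (ez t)‖) (54 * n + 1) := by
  classical
  have hone : ∀ (S : Finset ℕ) (A : ℕ → ℂ[X]) (l : ℕ), S = {l} → A l ≠ 0 →
      blk S A ≠ 0 ∧ Dom (fun t => ‖(A l).eval (ez t)‖ / ‖(blk S A).eval (ez t)‖) 1 := by
    intro S A l hS hl
    have h1 : blk S A = A l * X ^ l := by
      unfold blk
      rw [hS, Finset.sum_singleton]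
    rw [h1]
    refine ⟨mul_ne_zero hl (pow_ne_zero _ X_ne_zero), ?_⟩
    have h2 := (dom_const (a := 1) (by norm_num)).le (c' := 1) (by
      have := Real.log_two_lt_d9
      norm_num
      linarith)
    refine h2.mono ?_
    filter_upwards [ae_eval_ne _ hl] with t ht
    refine ⟨by positivity, ?_⟩
    rw [eval_mul, norm_mul, eval_pow, eval_X, norm_pow, D_norm_ez, one_pow, mul_one,
      div_self (norm_ne_zero_iff.2 ht)]
  induction n with
  | zero =>
    intro S A D l hc hl hAl _ _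
    have hS : S = {l} := by
      apply Finset.eq_singleton_iff_unique_mem.2
      refine ⟨hl, fun x hx => ?_⟩
      exact Finset.card_le_one.1 (by omega) x hx l hl
    obtain ⟨h1, h2⟩ := hone S A l hS hAl
    exact ⟨h1, h2.le (by norm_num)⟩
  | succ n ih =>
    intro S A D l hc hl hAl hD hgap
    rcases (S.erase l).eq_empty_or_nonempty with he | he
    · have hS : S = {l} := by
        rw [Finset.erase_eq_empty_iff] at he
        rcases he with he | he
        · rw [he] at hl
          exact absurd hl (Finset.notMem_empty l)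
        · exact he
      obtain ⟨h1, h2⟩ := hone S A l hS hAl
      refine ⟨h1, h2.le ?_⟩
      push_cast
      have : (0:ℝ) ≤ n := Nat.cast_nonneg n
      linarith
    obtain ⟨i, hi, himax⟩ := Finset.exists_max_image (S.erase l)
      (fun i : ℕ => |(l : ℝ) - i|) he
    have hil : i ≠ l := (Finset.mem_erase.1 hi).1
    have hiS : i ∈ S := (Finset.mem_erase.1 hi).2
    obtain ⟨g, hg⟩ : ∃ g : ℕ, |(l : ℝ) - i| = g := by
      refine ⟨((l : ℤ) - i).natAbs, ?_⟩
      rw [Nat.cast_natAbs]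
      push_cast
      rfl
    have hg1 : 1 ≤ g := by
      rcases Nat.eq_zero_or_pos g with h | h
      · exfalso
        rw [h, Nat.cast_zero, abs_eq_zero, sub_eq_zero] at hg
        exact hil (by exact_mod_cast hg.symm)
      · exact h
    have hmax : ∀ s ∈ S, |(l : ℝ) - s| ≤ g := by
      intro s hs
      by_cases hsl : s = l
      · rw [hsl, sub_self, abs_zero]
        positivity
      · rw [← hg]
        exact himax s (Finset.mem_erase.2 ⟨hsl, hs⟩)
    have hli : l ∈ S.erase i := Finset.mem_erase.2 ⟨hil.symm, hl⟩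
    have hce : (S.erase i).card ≤ n + 1 := by
      rw [Finset.card_erase_of_mem hiS]
      omega
    by_cases hAi : A i = 0
    · obtain ⟨h1, h2⟩ := ih (S.erase i) A D l hce hli hAl
        (fun s hs => hD s (Finset.mem_erase.1 hs).2) (by
          intro s hs t ht hst
          refine le_trans ?_ (hgap s (Finset.mem_erase.1 hs).2 t (Finset.mem_erase.1 ht).2 hst)
          apply thr_mono
          rw [pow_succ]
          nlinarith [Nat.zero_le (2 ^ n * D)])
      rw [blk_erase hAi] at h1 h2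
      refine ⟨h1, h2.le ?_⟩
      push_cast
      linarith
    · have hg80 : thr D ≤ g := by
        rw [← hg]
        refine le_trans ?_ (hgap l hl i hiS hil.symm)
        apply thr_mono
        exact Nat.le_mul_of_pos_left D (by positivity)
      have hgn : ‖((l : ℂ) - (i : ℂ))‖ = g := by
        rw [← hg, ← Complex.ofReal_natCast, ← Complex.ofReal_natCast, ← Complex.ofReal_sub,
          Complex.norm_real, Real.norm_eq_abs]
      have hwr0 : kl i A l ≠ 0 :=
        (wr_mahler (g := (l : ℂ) - (i : ℂ)) hAi hAl (hD i hiS) (hD l hl)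
          (by rw [hgn]; exact_mod_cast hg1) (by rw [hgn]; exact hg80)).1
      obtain ⟨h1, h2⟩ := ih (S.erase i) (kl i A) (2 * D) l hce hli hwr0 (by
          intro s hs
          exact wr_natDegree _ (hD i hiS) (hD s (Finset.mem_erase.1 hs).2)) (by
          intro s hs t ht hst
          refine le_trans (le_of_eq ?_)
            (hgap s (Finset.mem_erase.1 hs).2 t (Finset.mem_erase.1 ht).2 hst)
          congr 1
          ring)
      rw [blk_erase (kl_self i A)] at h1 h2
      obtain ⟨h3, h4⟩ := step hl hiS hD hg hmax hg1 hg80 hAl hAi h1 h2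
      refine ⟨h3, h4.le ?_⟩
      push_cast
      linarith

end Pool.Agent.N772.BL
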