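import Mathlib
import Pool.Agent.N772.BL.Main
import Pool.Agent.Y820.LB.Pairs
import Pool.Agent.R328.PH

/-!
# Integer polynomials that are sparse in blocks
-/

set_option autoImplicit false

open Polynomial MeasureTheory
open Pool.Agent.H261R2.CM
open Pool.Agent.Y820.LB
open Pool.Agent.W242.IM (ae_eval_ne)

namespace Pool.Agent.N772.BL

/-- the sum of the blocks -/
noncomputable def zblk (S : Finset ℕ) (A : ℕ → ℤ[X]) : ℤ[X] := ∑ s ∈ S, A s * X ^ s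

lemma toC_zblk (S : Finset ℕ) (A : ℕ → ℤ[X]) : toC (zblk S A) = blk S (fun s => toC (A s)) := by
  unfold zblk blk toC
  rw [Polynomial.map_sum]
  refine Finset.sum_congr rfl fun s _ => ?_
  rw [Polynomial.map_mul, Polynomial.map_pow, Polynomial.map_X]

lemma toC_natDegree (A : ℤ[X]) : (toC A).natDegree = A.natDegree := by
  unfold toC
  exact natDegree_map_eq_of_injective (RingHom.injective_int _) A

lemma aeval_toC (A : ℤ[X]) (z : ℂ) : aeval z A = (toC A).eval z := by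
  unfold toC
  rw [eval_map, aeval_def]
  rfl

/-- the quotient of a block by the polynomial is dominated -/
theorem dom_block {r D : ℕ} {S : Finset ℕ} {A : ℕ → ℤ[X]} {l : ℕ} (hc : S.card ≤ r + 1)
    (hl : l ∈ S) (hAl : A l ≠ 0) (hD : ∀ s ∈ S, (A s).natDegree ≤ D)
    (hgap : ∀ s ∈ S, ∀ t ∈ S, s ≠ t → thr (2 ^ r * D) ≤ |(s : ℝ) - t|) :
    zblk S A ≠ 0 ∧ Dom (fun t => ‖ev1 (A l) t / ev1 (zblk S A) t‖) (54 * r + 1) := by
  have h := main r S (fun s => toC (A s)) D l hc hl (D_toC_ne _ hAl)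
    (fun s hs => by rw [toC_natDegree]; exact hD s hs) hgap
  rw [← toC_zblk] at h
  refine ⟨?_, ?_⟩
  · intro h0
    apply h.1
    rw [h0]
    unfold toC
    rw [Polynomial.map_zero]
  · refine h.2.mono (ae_of_all _ fun t => ⟨norm_nonneg _, le_of_eq ?_⟩)
    rw [norm_div]
    rfl

/-- the gap, all polynomials -/
theorem gap_blocks (r : ℕ) : ∃ μ : ℝ, 1 < μ ∧ ∀ (D : ℕ) (S : Finset ℕ) (A : ℕ → ℤ[X]),
    S.card ≤ r + 1 → (∀ s ∈ S, (A s).natDegree ≤ D) →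
    (∀ s ∈ S, ∀ t ∈ S, s ≠ t → thr (2 ^ r * D) ≤ |(s : ℝ) - t|) →
    (∀ z : ℂ, 1 < ‖z‖ → ∃ s ∈ S, aeval z (A s) ≠ 0) →
    m1 (zblk S A) = 1 ∨ μ ≤ m1 (zblk S A) := by
  obtain ⟨c, hc1, hc2, h⟩ := pair_gap (54 * r + 1)
  refine ⟨c, hc1, ?_⟩
  intro D S A hcard hD hgap hz
  have hne : ∀ l ∈ S, ∀ z : ℂ, aeval z (A l) ≠ 0 → A l ≠ 0 := by
    intro l _ z h1 h2
    apply h1
    rw [h2, map_zero]
  obtain ⟨l0, hl0, h0⟩ := hz 2 (by simp)
  have hf0 := (dom_block hcard hl0 (hne l0 hl0 2 h0) hD hgap).1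
  by_cases hm : m1 (zblk S A) = 1
  · exact Or.inl hm
  right
  rcases m1_cases _ hf0 hm with h2 | ⟨z, hz0, hz1⟩
  · exact hc2.trans h2
  obtain ⟨l, hl, h1⟩ := hz z hz1
  obtain ⟨-, hdom⟩ := dom_block hcard hl (hne l hl z h1) hD hgap
  refine h _ (A l) hf0 _ hdom ?_ z 1 hz1 ?_ ?_
  · filter_upwards [D_ae_ne _ hf0] with t ht
    rw [mul_div_cancel₀ _ ht]
  · rw [pow_one]
    exact dvd_iff_isRoot.2 hz0
  · rw [pow_one]
    intro h3
    apply h1
    rw [aeval_toC]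
    exact dvd_iff_isRoot.1 h3

end Pool.Agent.N772.BL
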