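import Mathlib
import Pool.Agent.N772.BL.Fin
import Pool.Agent.TH845.KN.B2
import Pool.Agent.W242.IM.Final2

/-!
# Bounded companions for integer polynomials that are sparse in blocks
-/

set_option autoImplicit false

open Polynomial MeasureTheory
open Pool.Agent.H261R2.CM
open Pool.Agent.Y820.LB
open Pool.Agent.W242.IM (ae_eval_ne allM closure_of_LL m1_mem_LL)
open Pool.Agent.TH845.KN (BC BC_monoid)

namespace Pool.Agent.N772.BL

lemma pow_inj {z : ℂ} (hz : 1 < ‖z‖) : Function.Injective (fun N : ℕ => z ^ N) := by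
  intro a b hab
  have h1 : ‖z‖ ^ a = ‖z‖ ^ b := by
    have := congrArg norm hab
    simpa using this
  exact Nat.pow_right_injective_real hz h1
where
  Nat.pow_right_injective_real {x : ℝ} (hx : 1 < x) {a b : ℕ} (h : x ^ a = x ^ b) : a = b :=
    (pow_right_injective₀ (by linarith) hx.ne') h

/-- a shift for which the sum of the shifted blocks does not vanish at given points -/
lemma exists_shift (R : Finset ℂ) (hR : ∀ z ∈ R, 1 < ‖z‖) (S : Finset ℕ) (A : ℕ → ℂ[X])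
    (hA : ∀ z ∈ R, ∃ s ∈ S, (A s).eval z ≠ 0) :
    ∃ N : ℕ, ∀ z ∈ R, ∑ s ∈ S, (A s).eval z * z ^ (N * s) ≠ 0 := by
  classical
  have hfin : ∀ z ∈ R, {N : ℕ | ∑ s ∈ S, (A s).eval z * z ^ (N * s) = 0}.Finite := by
    intro z hz
    set p : ℂ[X] := ∑ s ∈ S, C ((A s).eval z) * X ^ s with hp
    have hp0 : p ≠ 0 := by
      obtain ⟨s, hs, hne⟩ := hA z hz
      intro h0
      apply hne
      have h1 := congrArg (fun q => q.coeff s) h0
      simp only [hp, finsetSum_coeff, coeff_C_mul_X_pow, coeff_zero] at h1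
      rw [Finset.sum_eq_single_of_mem s hs] at h1
      · simpa using h1
      · intro b _ hb
        rw [if_neg (Ne.symm hb)]
    have h2 : {N : ℕ | ∑ s ∈ S, (A s).eval z * z ^ (N * s) = 0} ⊆
        (fun N : ℕ => z ^ N) ⁻¹' {y | y ∈ p.roots} := by
      intro N hN
      simp only [Set.mem_preimage, Set.mem_setOf_eq] at hN ⊢
      rw [mem_roots hp0, IsRoot.def, hp, eval_finsetSum]
      rw [← hN]
      refine Finset.sum_congr rfl fun s _ => ?_
      rw [eval_mul, eval_C, eval_pow, eval_X, pow_mul]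
    refine Set.Finite.subset (Set.Finite.preimage (pow_inj (hR z hz)).injOn ?_) h2
    exact (p.roots.toFinset.finite_toSet).subset (fun y hy => by simpa using hy)
  have hU : (⋃ z ∈ R, {N : ℕ | ∑ s ∈ S, (A s).eval z * z ^ (N * s) = 0}).Finite :=
    Set.Finite.biUnion R.finite_toSet (fun z hz => hfin z hz)
  obtain ⟨N, hN⟩ := hU.exists_notMem
  refine ⟨N, fun z hz h0 => hN ?_⟩
  simp only [Set.mem_iUnion, Set.mem_setOf_eq]
  exact ⟨z, hz, h0⟩

lemma Dom_zero : Dom (fun _ => 0) 0 := by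
  refine ⟨fun _ => 0, intervalIntegrable_const, ae_of_all _ fun t => ⟨le_rfl, by simp⟩, by simp⟩

lemma Dom_sum {ι : Type*} (S : Finset ι) (H : ι → ℝ → ℝ) (c : ℝ) (h : ∀ s ∈ S, Dom (H s) c) :
    Dom (fun t => ∑ s ∈ S, H s t) (S.card * c) := by
  classical
  induction S using Finset.induction_on with
  | empty => simpa using Dom_zero
  | insert a S ha ih =>
    have h1 := ih (fun s hs => h s (Finset.mem_insert_of_mem hs))
    have h2 := (h a (Finset.mem_insert_self a S)).add h1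
    rw [Finset.card_insert_of_notMem ha]
    refine (h2.le (by push_cast; linarith)).mono ?_
    obtain ⟨g, hg1, hg2, hg3⟩ := h2
    filter_upwards [hg2] with t ht
    rw [Finset.sum_insert ha]
    exact ⟨ht.1, le_rfl⟩

lemma ev1_sum_blocks (S : Finset ℕ) (A : ℕ → ℤ[X]) (N : ℕ) (t : ℝ) :
    ev1 (∑ s ∈ S, A s * X ^ (N * s)) t = ∑ s ∈ S, ev1 (A s) t * ez t ^ (N * s) := by
  unfold ev1 toC
  rw [Polynomial.map_sum, eval_finsetSum]
  refine Finset.sum_congr rfl fun s _ => ?_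
  rw [Polynomial.map_mul, Polynomial.map_pow, Polynomial.map_X, eval_mul, eval_pow, eval_X]

/-- a companion without outer common zeros -/
theorem companion {r D : ℕ} {S : Finset ℕ} {A : ℕ → ℤ[X]} (hcard : S.card ≤ r + 1)
    (hD : ∀ s ∈ S, (A s).natDegree ≤ D)
    (hgap : ∀ s ∈ S, ∀ t ∈ S, s ≠ t → thr (2 ^ r * D) ≤ |(s : ℝ) - t|)
    (hz : ∀ z : ℂ, 1 < ‖z‖ → ∃ s ∈ S, aeval z (A s) ≠ 0) :
    ∃ d P Q : ℤ[X], zblk S A = d * P ∧ d ≠ 0 ∧ P ≠ 0 ∧ Q ≠ 0 ∧ IsRelPrime P Q ∧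
      (∀ z : ℂ, 1 < ‖z‖ → (toC d).eval z ≠ 0) ∧
      mx1 P Q ≤ Real.log (m1 P) + (r + 1) * (54 * r + 1) := by
  classical
  have hne : ∀ l ∈ S, ∀ z : ℂ, aeval z (A l) ≠ 0 → A l ≠ 0 := by
    intro l _ z h1 h2
    apply h1
    rw [h2, map_zero]
  obtain ⟨l0, hl0, h0⟩ := hz 2 (by simp)
  have hf0 := (dom_block hcard hl0 (hne l0 hl0 2 h0) hD hgap).1
  set f := zblk S A with hf
  have hr : (0:ℝ) ≤ r := Nat.cast_nonneg r
  -- the domination of all the blocks
  have hdom : ∀ s ∈ S, Dom (fun t => ‖ev1 (A s) t / ev1 f t‖) (54 * r + 1) := by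
    intro s hs
    by_cases hs0 : A s = 0
    · have h1 : Dom (fun _ => 0) (54 * (r:ℝ) + 1) := Dom_zero.le (by positivity)
      refine h1.mono (ae_of_all _ fun t => ⟨norm_nonneg _, ?_⟩)
      rw [hs0]
      unfold ev1 toC
      simp
    · exact (dom_block hcard hs hs0 hD hgap).2
  have hfC : toC f ≠ 0 := D_toC_ne f hf0
  -- the shift
  set R : Finset ℂ := (toC f).roots.toFinset.filter (fun z => 1 < ‖z‖) with hR
  obtain ⟨N, hN⟩ := exists_shift R (fun z hz => (Finset.mem_filter.1 hz).2) S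
    (fun s => toC (A s)) (by
      intro z hz'
      obtain ⟨s, hs, h1⟩ := hz z (Finset.mem_filter.1 hz').2
      refine ⟨s, hs, ?_⟩
      rw [← aeval_toC]
      exact h1)
  set G : ℤ[X] := ∑ s ∈ S, A s * X ^ (N * s) with hG
  have hGe : ∀ z : ℂ, (toC G).eval z = ∑ s ∈ S, (toC (A s)).eval z * z ^ (N * s) := by
    intro z
    rw [hG]
    unfold toC
    rw [Polynomial.map_sum, eval_finsetSum]
    refine Finset.sum_congr rfl fun s _ => ?_
    rw [Polynomial.map_mul, Polynomial.map_pow, Polynomial.map_X, eval_mul, eval_pow, eval_X]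
  have hout : ∀ z : ℂ, 1 < ‖z‖ → (toC f).eval z = 0 → (toC G).eval z ≠ 0 := by
    intro z hz1 hz0
    rw [hGe]
    apply hN z
    rw [hR, Finset.mem_filter, Multiset.mem_toFinset, mem_roots hfC]
    exact ⟨hz0, hz1⟩
  have hdG : Dom (fun t => ‖ev1 G t / ev1 f t‖) ((r + 1) * (54 * r + 1)) := by
    have h1 := Dom_sum S (fun s t => ‖ev1 (A s) t / ev1 f t‖) (54 * r + 1) hdom
    have h2 : (S.card : ℝ) * (54 * r + 1) ≤ (r + 1) * (54 * r + 1) := by
      have h3 : (S.card : ℝ) ≤ r + 1 := by exact_mod_cast hcard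
      exact mul_le_mul_of_nonneg_right h3 (by positivity)
    refine (h1.le h2).mono (ae_of_all _ fun t => ⟨norm_nonneg _, ?_⟩)
    rw [hG, ev1_sum_blocks, Finset.sum_div]
    refine (norm_sum_le _ _).trans (Finset.sum_le_sum fun s _ => ?_)
    rw [norm_div, norm_mul, norm_pow, D_norm_ez, one_pow, mul_one, norm_div]
  by_cases hG0 : G = 0
  · refine ⟨f, 1, 1, (mul_one f).symm, hf0, one_ne_zero, one_ne_zero, isRelPrime_one_left, ?_, ?_⟩
    · intro z hz1 hz0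
      apply hout z hz1 hz0
      rw [hG0]
      simp [toC]
    · have h2 : mx1 (1 : ℤ[X]) 1 = 0 := by
        unfold mx1
        simp [ev1_one]
      have h3 : m1 (1 : ℤ[X]) = 1 := by
        unfold m1 toC
        rw [Polynomial.map_one, mahlerMeasure_one]
      rw [h2, h3, Real.log_one]
      positivity
  · obtain ⟨P, Q, d, h1, h2, h3, h4, h5, h6, h7, h8⟩ := reduce f G hf0 hG0 _ _ hdG (by
      filter_upwards [D_ae_ne _ hf0] with t ht
      rw [mul_div_cancel₀ _ ht])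
    refine ⟨d, P, Q, h1, h3, h4, h5, h6, ?_, h8⟩
    intro z hz1 hz0
    apply hout z hz1
    · rw [h1, toC_mul, eval_mul, hz0, zero_mul]
    · rw [h2, toC_mul, eval_mul, hz0, zero_mul]

lemma m1_nat {d : ℤ[X]} (hd : d ≠ 0) (h : ∀ z : ℂ, 1 < ‖z‖ → (toC d).eval z ≠ 0) :
    ∃ n : ℕ, 1 ≤ n ∧ m1 d = n := by
  have h0 : toC d ≠ 0 := D_toC_ne d hd
  have h2 : ((toC d).roots.map fun a => max 1 ‖a‖) = (toC d).roots.map fun _ => (1 : ℝ) := by
    refine Multiset.map_congr rfl fun z hz => ?_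
    refine max_eq_left ?_
    by_contra hcon
    push Not at hcon
    exact h z hcon ((mem_roots h0).mp hz)
  refine ⟨d.leadingCoeff.natAbs, ?_, ?_⟩
  · have := leadingCoeff_ne_zero.2 hd
    omega
  · unfold m1
    rw [mahlerMeasure_eq_leadingCoeff_mul_prod_roots, h2]
    have h4 : (toC d).leadingCoeff = ((d.leadingCoeff : ℤ) : ℂ) := by
      unfold toC
      rw [leadingCoeff_map_of_injective (RingHom.injective_int _)]
      rfl
    rw [h4, Complex.norm_intCast, Nat.cast_natAbs]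
    simp

/-- the measures of the block sparse polynomials -/
def TBL (κ : ℝ → ℕ) : Set ℝ := {x : ℝ | ∃ (r D : ℕ) (S : Finset ℕ) (A : ℕ → ℤ[X]),
  r ≤ κ x ∧ S.card ≤ r + 1 ∧ (∀ s ∈ S, (A s).natDegree ≤ D) ∧
  (∀ s ∈ S, ∀ t ∈ S, s ≠ t → thr (2 ^ r * D) ≤ |(s : ℝ) - t|) ∧
  (∀ z : ℂ, 1 < ‖z‖ → ∃ s ∈ S, aeval z (A s) ≠ 0) ∧ x = m1 (zblk S A)}

theorem BC_TBL {κ : ℝ → ℕ} (hκ : Monotone κ) : BC (TBL κ) := by
  intro B
  set c : ℝ := (κ B + 1) * (54 * κ B + 1) with hc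
  set T1 : Set ℝ := {y | ∃ P Q : ℤ[X], P ≠ 0 ∧ Q ≠ 0 ∧ IsRelPrime P Q ∧
    mx1 P Q ≤ Real.log (m1 P) + c ∧ y = m1 P} with hT1
  set T2 : Set ℝ := {y | ∃ n : ℕ, 1 ≤ n ∧ y = n} with hT2
  have b1 : BC T1 := by
    intro B'
    refine ⟨Real.log (max B' 1) + c, ?_⟩
    rintro y ⟨⟨P, Q, h1, h2, h3, h4, rfl⟩, hy⟩
    refine m1_mem_LL P Q h1 h2 h3 _ (h4.trans ?_)
    have h8 : 0 < m1 P := lt_of_lt_of_le one_pos (one_le_m1 h1)
    have h9 : Real.log (m1 P) ≤ Real.log (max B' 1) :=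
      Real.log_le_log h8 (le_max_of_le_left (Set.mem_Iio.mp hy).le)
    linarith
  have b2 : BC T2 := by
    intro B'
    refine ⟨Real.log (max B' 1), ?_⟩
    rintro y ⟨⟨n, hn, rfl⟩, hy⟩
    refine Pool.Agent.TH845.KN.nat_mem_LL n hn _ ?_
    exact Real.log_le_log (by exact_mod_cast hn) (le_max_of_le_left (Set.mem_Iio.mp hy).le)
  obtain ⟨K, hK⟩ := BC_monoid (b1.union b2) B
  refine ⟨K, ?_⟩
  rintro x ⟨⟨r, D, S, A, hr, hcard, hD, hgap, hz, rfl⟩, hx⟩
  refine hK ⟨?_, hx⟩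
  obtain ⟨d, P, Q, h1, h2, h3, h4, h5, h6, h7⟩ := companion hcard hD hgap hz
  obtain ⟨n, hn1, hn⟩ := m1_nat h2 h6
  rw [h1, m1_mul, hn]
  refine Submonoid.mul_mem _ (Submonoid.subset_closure (Or.inr ⟨n, hn1, rfl⟩))
    (Submonoid.subset_closure (Or.inl ⟨P, Q, h3, h4, h5, h7.trans ?_, rfl⟩))
  have h8 : (r : ℝ) ≤ κ B := by
    exact_mod_cast hr.trans (hκ (Set.mem_Iio.1 hx).le)
  have h9 : (0:ℝ) ≤ r := Nat.cast_nonneg r
  have h10 : ((r:ℝ) + 1) * (54 * r + 1) ≤ c := by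
    rw [hc]
    apply mul_le_mul <;> nlinarith
  linarith

end Pool.Agent.N772.BL
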