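import Mathlib
import Pool.Agent.N772.BL.Fin
import Pool.Agent.N772.SC.Gap

/-!
# Block sparse polynomials with a nonreciprocal leading block
-/

set_option autoImplicit false

open Polynomial MeasureTheory
open Pool.Agent.H261R2.CM
open Pool.Agent.Y820.LB
open Pool.Agent.W242.IM (ae_eval_ne)
open Pool.Agent.N772.SC (length outer)

namespace Pool.Agent.N772.BL

lemma length_nonneg (B : ℤ[X]) : 0 ≤ length B := Finset.sum_nonneg fun _ _ => abs_nonneg _

lemma length_eq {B : ℤ[X]} {s : Finset ℕ} (h : B.support ⊆ s) :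
    length B = ∑ i ∈ s, |(B.coeff i : ℝ)| := by
  unfold length
  refine Finset.sum_subset h fun i _ hi => ?_
  rw [notMem_support_iff] at hi
  rw [hi]
  simp

lemma length_add (B E : ℤ[X]) : length (B + E) ≤ length B + length E := by
  classical
  rw [length_eq (B := B + E) (s := B.support ∪ E.support) support_add,
    length_eq (B := B) (s := B.support ∪ E.support) Finset.subset_union_left,
    length_eq (B := E) (s := B.support ∪ E.support) Finset.subset_union_right,
    ← Finset.sum_add_distrib]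
  refine Finset.sum_le_sum fun i _ => ?_
  rw [coeff_add]
  push_cast
  exact abs_add_le _ _

lemma length_sum {ι : Type*} (s : Finset ι) (B : ι → ℤ[X]) :
    length (∑ i ∈ s, B i) ≤ ∑ i ∈ s, length (B i) := by
  classical
  induction s using Finset.induction_on with
  | empty => simp [length]
  | insert a s ha ih =>
    rw [Finset.sum_insert ha, Finset.sum_insert ha]
    exact (length_add _ _).trans (by linarith)

lemma length_mul_X_pow (B : ℤ[X]) (n : ℕ) : length (B * X ^ n) = length B := by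
  classical
  have h1 : (B * X ^ n).support ⊆ B.support.map (addRightEmbedding n) := by
    intro i hi
    rw [mem_support_iff, coeff_mul_X_pow'] at hi
    split_ifs at hi with h
    · rw [Finset.mem_map]
      refine ⟨i - n, mem_support_iff.2 hi, ?_⟩
      simp only [addRightEmbedding_apply]
      omega
    · exact absurd rfl hi
  rw [length_eq h1, Finset.sum_map]
  unfold length
  refine Finset.sum_congr rfl fun i _ => ?_
  simp only [addRightEmbedding_apply]
  rw [coeff_mul_X_pow]

lemma length_le (B : ℤ[X]) {D : ℕ} (hD : B.natDegree ≤ D) : length B ≤ 2 ^ D * m1 B := by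
  have hm : 0 ≤ m1 B := mahlerMeasure_nonneg _
  have h1 : B.support ⊆ Finset.range (B.natDegree + 1) := supp_subset_range_natDegree_succ
  rw [length_eq h1]
  have h2 : ∀ i ∈ Finset.range (B.natDegree + 1), |(B.coeff i : ℝ)| ≤
      (B.natDegree.choose i : ℝ) * m1 B := by
    intro i _
    have h3 := norm_coeff_le_choose_mul_mahlerMeasure i (toC B)
    rw [toC_natDegree] at h3
    have h4 : (toC B).coeff i = ((B.coeff i : ℤ) : ℂ) := by
      unfold toC
      rw [coeff_map]
      rfl
    rw [h4, Complex.norm_intCast] at h3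
    exact h3
  refine (Finset.sum_le_sum h2).trans ?_
  rw [← Finset.sum_mul]
  refine mul_le_mul_of_nonneg_right ?_ hm
  have h5 : ∑ i ∈ Finset.range (B.natDegree + 1), (B.natDegree.choose i : ℝ) =
      (2:ℝ) ^ B.natDegree := by
    exact_mod_cast Nat.sum_range_choose B.natDegree
  rw [h5]
  exact pow_le_pow_right₀ (by norm_num) hD

lemma log_m1_le {P Q : ℤ[X]} (hP : P ≠ 0) (hQ : Q ≠ 0) {c : ℝ}
    (h : Dom (fun t => ‖ev1 Q t / ev1 P t‖) c) :
    Real.log (m1 Q) ≤ Real.log (m1 P) + c := by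
  obtain ⟨g, hg1, hg2, hg3⟩ := h
  rw [D_log_m1, D_log_m1]
  have h1 : ∫ t in (0:ℝ)..1, Real.log ‖ev1 Q t‖ ≤
      ∫ t in (0:ℝ)..1, (Real.log ‖ev1 P t‖ + g t) := by
    refine intervalIntegral.integral_mono_ae zero_le_one (D_intervalIntegrable_log Q)
      ((D_intervalIntegrable_log P).add hg1) ?_
    filter_upwards [hg2, D_ae_ne P hP, D_ae_ne Q hQ] with t h3 h4 h5
    have p4 : 0 < ‖ev1 P t‖ := norm_pos_iff.2 h4
    have p5 : 0 < ‖ev1 Q t‖ := norm_pos_iff.2 h5
    rw [norm_div] at h3
    have h6 : Real.log (‖ev1 Q t‖ / ‖ev1 P t‖) ≤ g t := by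
      refine le_trans ?_ h3.2
      apply Real.log_le_log (by positivity)
      linarith
    rw [Real.log_div p5.ne' p4.ne'] at h6
    linarith
  rw [intervalIntegral.integral_add (D_intervalIntegrable_log P) hg1] at h1
  linarith

lemma m1_X_pow (n : ℕ) : m1 (X ^ n : ℤ[X]) = 1 := by
  unfold m1 toC
  rw [Polynomial.map_pow, Polynomial.map_X]
  induction n with
  | zero => simp
  | succ n ih =>
    rw [pow_succ, mahlerMeasure_mul, ih]
    have h := mahlerMeasure_X_sub_C 0
    rw [C_0, sub_zero] at h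
    rw [h]
    simp

lemma numeric {r D : ℕ} (hr : 1 ≤ r) (hD : 1 ≤ D) :
    45 * (D : ℝ) * (D * (1 + Real.log (40 * D)) + (55 * r + 0.7 * D + 0.2) + 5) + D ≤
      2 * thr (2 ^ r * D) := by
  unfold thr
  have hr1 : (1:ℝ) ≤ r := by exact_mod_cast hr
  have hD1 : (1:ℝ) ≤ D := by exact_mod_cast hD
  have hx : 0 ≤ Real.log (D:ℝ) := Real.log_nonneg hD1
  have hl2 := Real.log_two_gt_d9
  have hl2' := Real.log_two_lt_d9
  have e1 : Real.log (40 * (D:ℝ)) ≤ 3.7 + Real.log D := by
    rw [Real.log_mul (by norm_num) (by positivity)]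
    have : Real.log 40 ≤ 3.7 := by
      have h1 : (40:ℝ) = 2 ^ 5 * (5 / 4) := by norm_num
      rw [h1, Real.log_mul (by norm_num) (by norm_num), Real.log_pow]
      have h2 : Real.log (5 / 4) ≤ 5 / 4 - 1 := Real.log_le_sub_one_of_pos (by norm_num)
      have h3 : Real.log (5 / 4) ≤ 0.225 := by
        rw [Real.log_le_iff_le_exp (by norm_num)]
        have h4 := Real.quadratic_le_exp_of_nonneg (show (0:ℝ) ≤ 0.225 by norm_num)
        norm_num at h4 ⊢
        linarith
      push_cast
      linarith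
    linarith
  have e2 : Real.log (4 * ((2 ^ r * D : ℕ) : ℝ)) = 2 * Real.log 2 + r * Real.log 2 + Real.log D := by
    push_cast
    rw [Real.log_mul (by norm_num) (by positivity), Real.log_mul (by positivity) (by positivity),
      Real.log_pow, show (4:ℝ) = 2 ^ 2 by norm_num, Real.log_pow]
    push_cast
    ring
  rw [e2]
  have e3 : (1:ℝ) + 3 * r ≤ (2 ^ r) ^ 2 := by
    have h1 := one_add_mul_le_pow (show (-2:ℝ) ≤ 3 by norm_num) r
    have h2 : ((2:ℝ) ^ r) ^ 2 = (1 + 3) ^ r := by
      rw [← pow_mul, mul_comm, pow_mul]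
      norm_num
    rw [h2]
    linarith
  push_cast
  have e4 : (2:ℝ) * (128 * (2 ^ r * D) ^ 2 *
      (1 + (2 * Real.log 2 + r * Real.log 2 + Real.log D))) =
      256 * ((2 ^ r) ^ 2) * D ^ 2 * (1 + 2 * Real.log 2 + r * Real.log 2 + Real.log D) := by ring
  rw [e4]
  have e5 : 256 * (1 + 3 * (r:ℝ)) * D ^ 2 * (2.386 + 0.693 * r + Real.log D) ≤
      256 * ((2 ^ r) ^ 2) * D ^ 2 * (1 + 2 * Real.log 2 + r * Real.log 2 + Real.log D) := by
    apply mul_le_mul
    · apply mul_le_mul_of_nonneg_right _ (by positivity)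
      linarith
    · nlinarith
    · positivity
    · positivity
  refine le_trans ?_ e5
  have e6 : 45 * (D : ℝ) * (D * (1 + Real.log (40 * D)) + (55 * r + 0.7 * D + 0.2) + 5) + D ≤
      D ^ 2 * (45 * (4.7 + Real.log D) + 45 * (55 * r + 0.7 + 0.2 + 5) + 1) := by
    have hDD : (D:ℝ) ≤ D ^ 2 := by nlinarith
    have h1 : 45 * (D : ℝ) * (D * (1 + Real.log (40 * D)) + (55 * r + 0.7 * D + 0.2) + 5) + D =
        45 * (D:ℝ) ^ 2 * (1 + Real.log (40 * D) + 0.7) + (45 * (55 * r + 5.2) + 1) * D := by ring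
    rw [h1]
    have h2 : (45 * (55 * (r:ℝ) + 5.2) + 1) * D ≤ (45 * (55 * r + 5.2) + 1) * D ^ 2 :=
      mul_le_mul_of_nonneg_left hDD (by positivity)
    have h3 : 45 * (D:ℝ) ^ 2 * (1 + Real.log (40 * D) + 0.7) ≤
        45 * (D:ℝ) ^ 2 * (1 + (3.7 + Real.log D) + 0.7) :=
      mul_le_mul_of_nonneg_left (by linarith) (by positivity)
    nlinarith
  refine e6.trans ?_
  have e7 : 256 * (1 + 3 * (r:ℝ)) * D ^ 2 * (2.386 + 0.693 * r + Real.log D) =
      D ^ 2 * (256 * (1 + 3 * r) * (2.386 + 0.693 * r + Real.log D)) := by ring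
  rw [e7]
  apply mul_le_mul_of_nonneg_left _ (by positivity)
  have e8 : 45 * Real.log (D:ℝ) ≤ 256 * (1 + 3 * r) * Real.log D :=
    mul_le_mul_of_nonneg_right (by nlinarith) hx
  nlinarith [mul_self_nonneg ((r:ℝ) - 1)]

end Pool.Agent.N772.BL
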