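import Mathlib
import Pool.Agent.N772.BL.Lead

/-!
# Block sparse polynomials with a nonreciprocal leading block, conclusion
-/

set_option autoImplicit false

open Polynomial MeasureTheory
open Pool.Agent.H261R2.CM
open Pool.Agent.Y820.LB
open Pool.Agent.W242.IM (ae_eval_ne)
open Pool.Agent.N772.SC (length outer)

namespace Pool.Agent.N772.BL

lemma outer_le (A : ℤ[X]) : outer A ≤ A.natDegree := by
  unfold outer
  refine (Multiset.card_le_card (Multiset.filter_le _ _)).trans ?_
  refine (card_roots' _).trans ?_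
  exact (toC_natDegree A).le

theorem lead {r D t : ℕ} {S : Finset ℕ} {A : ℕ → ℤ[X]} (hcard : S.card ≤ r + 1) (ht : t ∈ S)
    (hmax : ∀ s ∈ S, s ≤ t) (hD : ∀ s ∈ S, (A s).natDegree ≤ D)
    (hgap : ∀ s ∈ S, ∀ u ∈ S, s ≠ u → 2 * thr (2 ^ r * D) ≤ |(s : ℝ) - u|)
    (h0 : (A t).coeff 0 ≠ 0) (h1 : (A t).reverse ≠ A t) (h2 : (A t).reverse ≠ -(A t)) :
    6 / 5 ≤ m1 (zblk S A) := by
  classical
  have hAt : A t ≠ 0 := by
    intro h
    rw [h, coeff_zero] at h0
    exact h0 rfl
  have hDt := hD t ht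
  have hD1 : 1 ≤ D := by
    by_contra hcon
    have h3 : (A t).natDegree = 0 := by omega
    apply h1
    rw [eq_C_of_natDegree_eq_zero h3, reverse_C]
  have hsm := Pool.Agent.N772.SC.smyth (A t) h0 h1 h2
  set B : ℤ[X] := ∑ s ∈ S.erase t, A s * X ^ s with hB
  have hf : zblk S A = X ^ t * A t + B := by
    unfold zblk
    rw [hB, ← Finset.add_sum_erase S _ ht, mul_comm (A t)]
  by_cases hB0 : B = 0
  · rw [hf, hB0, add_zero, m1_mul, m1_X_pow, one_mul]
    have h3 : (128:ℝ) / 100 ≤ m1 (A t) := hsm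
    linarith
  -- there are other blocks
  have hne : (S.erase t).Nonempty := by
    by_contra hcon
    rw [Finset.not_nonempty_iff_eq_empty] at hcon
    apply hB0
    rw [hB, hcon, Finset.sum_empty]
  have hr1 : 1 ≤ r := by
    have h3 := Finset.card_pos.2 hne
    rw [Finset.card_erase_of_mem ht] at h3
    omega
  have hthr0 : 0 ≤ thr (2 ^ r * D) := by
    unfold thr
    have h5 : 1 ≤ 2 ^ r * D := Nat.mul_pos (by positivity) hD1
    have h7 : (1 : ℝ) ≤ ((2 ^ r * D : ℕ) : ℝ) := by exact_mod_cast h5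
    have h8 : 0 ≤ Real.log (4 * ((2 ^ r * D : ℕ) : ℝ)) := Real.log_nonneg (by linarith)
    positivity
  by_contra hcon
  push Not at hcon
  have hgap' : ∀ s ∈ S, ∀ u ∈ S, s ≠ u → thr (2 ^ r * D) ≤ |(s : ℝ) - u| := by
    intro s hs u hu hsu
    have := hgap s hs u hu hsu
    linarith
  obtain ⟨hf0, -⟩ := dom_block hcard ht hAt hD hgap'
  have hlogf : Real.log (m1 (zblk S A)) ≤ 0.2 := by
    have h3 : 1 ≤ m1 (zblk S A) := one_le_m1 hf0
    have h4 := Real.log_le_sub_one_of_pos (show (0:ℝ) < 6 / 5 by norm_num)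
    have h5 := Real.log_le_log (by linarith) hcon.le
    norm_num at h4 ⊢
    linarith
  -- the length of the rest
  have hlen1 : ∀ s ∈ S.erase t, length (A s) ≤ 2 ^ D * Real.exp (54 * r + 1.2) := by
    intro s hs
    have hsS := (Finset.mem_erase.1 hs).2
    by_cases hs0 : A s = 0
    · rw [hs0]
      unfold length
      simp
      positivity
    refine (length_le (A s) (hD s hsS)).trans ?_
    apply mul_le_mul_of_nonneg_left _ (by positivity)
    have h3 := log_m1_le hf0 hs0 (dom_block hcard hsS hs0 hD hgap').2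
    have h4 : 0 < m1 (A s) := lt_of_lt_of_le one_pos (one_le_m1 hs0)
    rw [← Real.exp_log h4]
    apply Real.exp_le_exp.2
    linarith
  have hlenB : length B ≤ r * (2 ^ D * Real.exp (54 * r + 1.2)) := by
    rw [hB]
    refine (length_sum _ _).trans ?_
    have h3 : ∀ s ∈ S.erase t, length (A s * X ^ s) ≤ 2 ^ D * Real.exp (54 * r + 1.2) := by
      intro s hs
      rw [length_mul_X_pow]
      exact hlen1 s hs
    refine (Finset.sum_le_sum h3).trans ?_
    rw [Finset.sum_const, nsmul_eq_mul]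
    apply mul_le_mul_of_nonneg_right _ (by positivity)
    rw [Finset.card_erase_of_mem ht]
    have : S.card - 1 ≤ r := by omega
    exact_mod_cast this
  have hL1 : 1 ≤ length B := by
    have h1 : B.natDegree ∈ B.support := natDegree_mem_support_of_nonzero hB0
    have h2 : |(B.coeff B.natDegree : ℝ)| ≤ length B :=
      Finset.single_le_sum (f := fun i => |(B.coeff i : ℝ)|) (fun _ _ => abs_nonneg _) h1
    have h3 : 1 ≤ |B.coeff B.natDegree| := Int.one_le_abs (mem_support_iff.1 h1)
    have h4 : (1:ℝ) ≤ |(B.coeff B.natDegree : ℝ)| := by exact_mod_cast h3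
    linarith
  have hr1' : (1:ℝ) ≤ r := by exact_mod_cast hr1
  have hlogL : Real.log (length B) ≤ 55 * r + 0.7 * D + 0.2 := by
    refine (Real.log_le_log (by linarith) hlenB).trans ?_
    rw [Real.log_mul (by positivity) (by positivity), Real.log_mul (by positivity) (by positivity),
      Real.log_pow, Real.log_exp]
    have h3 : Real.log (r:ℝ) ≤ r - 1 := Real.log_le_sub_one_of_pos (by positivity)
    have h4 := Real.log_two_lt_d9
    have h5 : (D:ℝ) * Real.log 2 ≤ D * 0.7 :=
      mul_le_mul_of_nonneg_left (by linarith) (Nat.cast_nonneg D)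
    linarith
  -- the gap
  obtain ⟨s0, hs0, hs0d⟩ : ∃ s0 ∈ S.erase t, B.natDegree ≤ s0 + D := by
    by_contra hc
    push Not at hc
    have h3 : B.natDegree ≤ B.natDegree - 1 := by
      conv_lhs => rw [hB]
      refine natDegree_sum_le_of_forall_le _ _ fun s hs => ?_
      refine natDegree_mul_le.trans ?_
      rw [natDegree_X_pow]
      have h4 := hc s hs
      have h5 := hD s (Finset.mem_erase.1 hs).2
      omega
    obtain ⟨s1, hs1⟩ := hne
    have := hc s1 hs1
    omega
  have hs0t : s0 ≠ t := (Finset.mem_erase.1 hs0).1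
  have hs0S : s0 ∈ S := (Finset.mem_erase.1 hs0).2
  have hG : 2 * thr (2 ^ r * D) ≤ (t : ℝ) - s0 := by
    have h3 := hgap t ht s0 hs0S hs0t.symm
    have h4 : (s0 : ℝ) ≤ t := by exact_mod_cast hmax s0 hs0S
    rwa [abs_of_nonneg (by linarith)] at h3
  have hnum := numeric hr1 hD1
  have hx40 : 0 ≤ Real.log (40 * (D:ℝ)) := by
    apply Real.log_nonneg
    have : (1:ℝ) ≤ D := by exact_mod_cast hD1
    linarith
  have hD1' : (1:ℝ) ≤ D := by exact_mod_cast hD1
  have hlt : B.natDegree + 1 ≤ t := by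
    have h3 : (D:ℝ) + 1 ≤ (t:ℝ) - s0 := by
      refine le_trans ?_ (hnum.trans hG)
      have : (1:ℝ) ≤ 45 * (D : ℝ) * (D * (1 + Real.log (40 * D)) + (55 * r + 0.7 * D + 0.2) + 5) := by
        have h5 : (5:ℝ) ≤ D * (1 + Real.log (40 * D)) + (55 * r + 0.7 * D + 0.2) + 5 := by
          have : 0 ≤ (D:ℝ) * (1 + Real.log (40 * D)) := by positivity
          nlinarith
        nlinarith
      linarith
    have h4 : (s0:ℝ) + D + 1 ≤ t := by linarith
    have h5 : s0 + D + 1 ≤ t := by exact_mod_cast h4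
    omega
  set g : ℕ := t - B.natDegree with hg
  have hgr : (g : ℝ) = t - B.natDegree := by
    rw [hg, Nat.cast_sub (by omega)]
  have hBs : (B.natDegree : ℝ) ≤ s0 + D := by exact_mod_cast hs0d
  have key := Pool.Agent.N772.SC.gap_int (A t) B t g hAt hB0 (by omega) (by omega) (by
    rw [hgr]
    refine le_trans ?_ (show 2 * thr (2 ^ r * D) - D ≤ (t:ℝ) - B.natDegree by linarith)
    refine le_trans ?_ (show _ ≤ 2 * thr (2 ^ r * D) - (D:ℝ) from le_sub_iff_add_le.2 hnum)
    have hk : (outer (A t) : ℝ) ≤ D := by exact_mod_cast (outer_le (A t)).trans hDt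
    have hd : ((A t).natDegree : ℝ) ≤ D := by exact_mod_cast hDt
    have hk0 : (0:ℝ) ≤ outer (A t) := Nat.cast_nonneg _
    rcases Nat.eq_zero_or_pos (outer (A t)) with hk' | hk'
    · rw [hk', Nat.cast_zero, mul_zero, zero_mul]
      positivity
    have hk1 : (1:ℝ) ≤ outer (A t) := by exact_mod_cast hk'
    have hl0 : 0 ≤ Real.log (length B) := Real.log_nonneg hL1
    have hx1 : 0 ≤ Real.log (40 * (outer (A t) : ℝ)) := Real.log_nonneg (by linarith)
    have hx2 : Real.log (40 * (outer (A t) : ℝ)) ≤ Real.log (40 * D) :=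
      Real.log_le_log (by linarith) (by linarith)
    have hin : ((A t).natDegree : ℝ) * (1 + Real.log (40 * (outer (A t) : ℝ))) ≤
        D * (1 + Real.log (40 * D)) :=
      mul_le_mul hd (by linarith) (by linarith) (by linarith)
    apply mul_le_mul
    · linarith
    · linarith
    · have : 0 ≤ ((A t).natDegree : ℝ) * (1 + Real.log (40 * (outer (A t) : ℝ))) := by positivity
      linarith
    · positivity)
  rw [← hf] at key
  have h3 : (128:ℝ) / 100 ≤ ((A t).map (Int.castRingHom ℂ)).mahlerMeasure := hsm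
  have h4 : m1 (zblk S A) = ((zblk S A).map (Int.castRingHom ℂ)).mahlerMeasure := rfl
  rw [← h4] at key
  linarith

end Pool.Agent.N772.BL
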