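import Mathlib
import Pool.Agent.N772.BL.Fin
import Pool.Agent.R328.PH

/-!
# Irreducible integer polynomials that are sparse in blocks
-/

set_option autoImplicit false

open Polynomial MeasureTheory
open Pool.Agent.H261R2.CM
open Pool.Agent.Y820.LB
open Pool.Agent.W242.IM (ae_eval_ne)

namespace Pool.Agent.N772.BL

lemma natDegree_zblk {D : ℕ} {S : Finset ℕ} {A : ℕ → ℤ[X]} (hD : ∀ s ∈ S, (A s).natDegree ≤ D)
    (hA : ∀ s ∈ S, A s ≠ 0) (h2 : 2 ≤ S.card)
    (hgap : ∀ s ∈ S, ∀ t ∈ S, s ≠ t → (D : ℝ) < |(s : ℝ) - t|) :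
    D < (zblk S A).natDegree := by
  classical
  have hSne : S.Nonempty := Finset.card_pos.1 (by omega)
  set m := S.max' hSne with hm
  have hmS : m ∈ S := S.max'_mem hSne
  have hlt : ∀ s ∈ S, s ≠ m → s + D < m := by
    intro s hs hsm
    have h3 : s ≤ m := S.le_max' s hs
    have h4 := hgap s hs m hmS hsm
    rw [abs_of_nonpos (by
      have : (s : ℝ) ≤ m := by exact_mod_cast h3
      linarith)] at h4
    have h5 : (s : ℝ) + D < m := by linarith
    exact_mod_cast h5
  obtain ⟨s0, hs0, hs0m⟩ : ∃ s ∈ S, s ≠ m := by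
    by_contra hcon
    push Not at hcon
    have h3 : S ⊆ {m} := fun s hs => Finset.mem_singleton.2 (hcon s hs)
    have h4 := Finset.card_le_card h3
    rw [Finset.card_singleton] at h4
    omega
  have hDm : D < m := by
    have := hlt s0 hs0 hs0m
    omega
  have hcoe : (zblk S A).coeff ((A m).natDegree + m) ≠ 0 := by
    unfold zblk
    rw [finsetSum_coeff, Finset.sum_eq_single_of_mem m hmS]
    · rw [coeff_mul_X_pow]
      exact leadingCoeff_ne_zero.2 (hA m hmS)
    · intro s hs hsm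
      apply coeff_eq_zero_of_natDegree_lt
      refine lt_of_le_of_lt natDegree_mul_le ?_
      rw [natDegree_X_pow]
      have h3 := hlt s hs hsm
      have h4 := hD s hs
      omega
  have := le_natDegree_of_ne_zero hcoe
  omega

/-- irreducible polynomials -/
theorem irr_blocks : ∃ c : ℝ, 0 < c ∧ ∀ (r D : ℕ) (S : Finset ℕ) (A : ℕ → ℤ[X]),
    S.card = r + 1 → 0 < r → (∀ s ∈ S, A s ≠ 0 ∧ (A s).natDegree ≤ D) →
    (∀ s ∈ S, ∀ t ∈ S, s ≠ t → thr (2 ^ r * D) ≤ |(s : ℝ) - t|) →
    Irreducible (zblk S A) → 1 < m1 (zblk S A) →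
    c / (r + 1 : ℝ) ^ 3 ≤ Real.log (m1 (zblk S A)) := by
  obtain ⟨c, hc0, hc⟩ := Pool.Agent.R328.pair_main
  refine ⟨min c 1 / 108 ^ 3, by positivity, ?_⟩
  intro r D S A hcard hr hA hgap hirr hM
  set f := zblk S A with hf
  have hSne : S.Nonempty := Finset.card_pos.1 (by omega)
  obtain ⟨l, hl⟩ := hSne
  obtain ⟨hf0, hdom⟩ := dom_block (r := r) hcard.le hl (hA l hl).1 (fun s hs => (hA s hs).2) hgap
  rw [← hf] at hf0 hdom
  have hDlt : D < f.natDegree := by
    refine natDegree_zblk (fun s hs => (hA s hs).2) (fun s hs => (hA s hs).1) (by omega) ?_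
    intro s hs t ht hst
    have h3 := hgap s hs t ht hst
    have h4 : (0:ℝ) < |(s : ℝ) - t| := by
      rw [abs_pos, sub_ne_zero]
      exact_mod_cast hst
    by_cases hD0 : D = 0
    · rw [hD0, Nat.cast_zero]
      exact h4
    · refine lt_of_lt_of_le ?_ h3
      have h5 : 1 ≤ 2 ^ r * D := Nat.mul_pos (by positivity) (Nat.pos_of_ne_zero hD0)
      have h6 : (D : ℝ) ≤ ((2 ^ r * D : ℕ) : ℝ) := by
        exact_mod_cast Nat.le_mul_of_pos_left D (by positivity)
      have h7 : (1 : ℝ) ≤ ((2 ^ r * D : ℕ) : ℝ) := by exact_mod_cast h5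
      have h8 : 0 ≤ Real.log (4 * ((2 ^ r * D : ℕ) : ℝ)) := Real.log_nonneg (by linarith)
      unfold thr
      nlinarith
  have hndvd : ¬ f ∣ A l := by
    intro h
    have h3 := natDegree_le_of_dvd h (hA l hl).1
    have h4 := (hA l hl).2
    omega
  have hr0 : (0:ℝ) ≤ r := Nat.cast_nonneg r
  have hr1 : (1:ℝ) ≤ (r:ℝ) + 1 := by linarith
  by_cases hbig : 1 < Real.log (m1 f)
  · refine le_trans ?_ hbig.le
    rw [div_le_one (by positivity)]
    calc min c 1 / 108 ^ 3 ≤ 1 / 108 ^ 3 := div_le_div_of_nonneg_right (min_le_right _ _) (by norm_num)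
      _ ≤ 1 := by norm_num
      _ ≤ ((r:ℝ) + 1) ^ 3 := one_le_pow₀ hr1
  push Not at hbig
  have h1 := hc f (A l) 1 one_pos hirr hndvd hM
  rw [Nat.cast_one, one_mul, div_one] at h1
  -- the mean
  have hav : Real.circleAverage (Pool.Agent.R328.PM f (A l) 1) 0 1 = mx1 f (A l) := by
    rw [D_circleAverage]
    unfold mx1 Pool.Agent.R328.PM
    refine intervalIntegral.integral_congr fun t _ => ?_
    simp only [pow_one]
    rw [aeval_toC, aeval_toC]
    rfl
  have hmx := mx1_le f (A l) hf0 _ _ hdom (by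
    filter_upwards [D_ae_ne _ hf0] with t ht
    rw [mul_div_cancel₀ _ ht])
  have hmx0 : 0 ≤ Real.circleAverage (Pool.Agent.R328.PM f (A l) 1) 0 1 :=
    Pool.Agent.R328.PM_nonneg hf0 hM.le (A l) 1
  rw [hav] at h1 hmx0
  have hfd : (0:ℝ) < f.natDegree := by
    have : 0 < f.natDegree := by omega
    exact_mod_cast this
  have hq : ((A l).natDegree : ℝ) / f.natDegree ≤ 1 := by
    rw [div_le_one hfd]
    have := (hA l hl).2
    have h4 : (A l).natDegree ≤ f.natDegree := by omega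
    exact_mod_cast h4
  have hq0 : 0 ≤ ((A l).natDegree : ℝ) / f.natDegree := by positivity
  have hW : (1 + ((A l).natDegree : ℝ) / f.natDegree) * (1 + mx1 f (A l)) ≤ 108 * (r + 1) := by
    have h5 : 1 + mx1 f (A l) ≤ 54 * (r + 1) := by linarith
    have h6 : (1 + ((A l).natDegree : ℝ) / f.natDegree) * (1 + mx1 f (A l)) ≤ 2 * (54 * (r + 1)) :=
      mul_le_mul (by linarith) h5 (by linarith) (by norm_num)
    linarith
  have hW0 : 0 < (1 + ((A l).natDegree : ℝ) / f.natDegree) * (1 + mx1 f (A l)) :=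
    mul_pos (by linarith) (by linarith)
  refine le_trans ?_ h1
  rw [div_div, ← mul_pow]
  refine (div_le_div_of_nonneg_right (min_le_left _ _) (by positivity)).trans ?_
  exact div_le_div_of_nonneg_left hc0.le (by positivity) (pow_le_pow_left₀ hW0.le hW 3)

end Pool.Agent.N772.BL
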